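import Mathlib

/-!
# Project UB (KLS for unconditional sums of many bodies): statements

Problems `MP_6d896a_gt`, `MP_8d00da_gt`, `MP_dc1397_gt`. The bodies are
`{x ∈ ∏ ℝ^{m_i} | (N_i(x_i))_i ∈ D}`, `N_i` norms whose unit balls are isotropic with a Poincare inequality,
`D ⊂ ℝ^b` an unconditional convex body, `(1 + log b)² ≤ T m_i`.
-/

set_option autoImplicit false

namespace Pool.Agent.U18.UB

open MeasureTheory Set Filter Topology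
open scoped ENNReal InnerProductSpace

/-- Euclidean space -/
abbrev E (m : ℕ) : Type := EuclideanSpace ℝ (Fin m)

/-- the uniform probability measure on `A` -/
noncomputable def un {V : Type} [MeasureSpace V] (A : Set V) : Measure V :=
  (volume A)⁻¹ • volume.restrict A

/-- norms -/
structure Nrm {m : ℕ} (N : E m → ℝ) : Prop where
  add_le : ∀ x y, N (x + y) ≤ N x + N y
  smul : ∀ (r : ℝ) (x : E m), N (r • x) = |r| * N x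
  pos : ∀ x, x ≠ 0 → 0 < N x

/-- the unit ball -/
def ball {m : ℕ} (N : E m → ℝ) : Set (E m) := {x | N x ≤ 1}

/-- norms whose unit ball is isotropic and has the Poincare constant `c0` -/
structure Blk (c0 : ℝ) {m : ℕ} (N : E m → ℝ) : Prop where
  nrm : Nrm N
  cov : ∀ θ : E m, ∫ x, ⟪x, θ⟫_ℝ ^ 2 ∂(un (ball N)) = ‖θ‖ ^ 2
  poi : ∀ f : E m → ℝ, ContDiff ℝ 1 f →
    (∫ x, f x ^ 2 ∂(un (ball N))) - (∫ x, f x ∂(un (ball N))) ^ 2 ≤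
      c0 * ∫ x, ‖fderiv ℝ f x‖ ^ 2 ∂(un (ball N))

/-- unconditional convex bodies in `ℝ^b` -/
structure UBd {b : ℕ} (D : Set (Fin b → ℝ)) : Prop where
  comp : IsCompact D
  conv : Convex ℝ D
  int : (interior D).Nonempty
  unc : ∀ t ∈ D, ∀ s : Fin b → ℝ, (∀ i, |s i| ≤ |t i|) → s ∈ D

/-- the weight `∏ t_i^(m_i - 1)` on `D ∩ ℝ₊^b` -/
noncomputable def wt {b : ℕ} (m : Fin b → ℕ) (D : Set (Fin b → ℝ)) : (Fin b → ℝ) → ℝ :=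
  {t | t ∈ D ∧ ∀ i, 0 ≤ t i}.indicator fun t => ∏ i, t i ^ (m i - 1)

/-- the probability measure with density proportional to `wt` -/
noncomputable def Pt {b : ℕ} (m : Fin b → ℕ) (D : Set (Fin b → ℝ)) : Measure (Fin b → ℝ) :=
  (∫⁻ t, ENNReal.ofReal (wt m D t))⁻¹ • volume.withDensity fun t => ENNReal.ofReal (wt m D t)

/-- the body `{x | (N_i(x_i))_i ∈ D}` -/
def bs {b : ℕ} {m : Fin b → ℕ} (N : ∀ i, E (m i) → ℝ) (D : Set (Fin b → ℝ)) :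
    Set (∀ i, E (m i)) := {x | (fun i => N i (x i)) ∈ D}

/-- the point with coordinates `t_i z_i / N_i(z_i)` -/
noncomputable def Ph {b : ℕ} {m : Fin b → ℕ} (N : ∀ i, E (m i) → ℝ) (t : Fin b → ℝ)
    (z : ∀ i, E (m i)) : ∀ i, E (m i) := fun i => (t i / N i (z i)) • z i

/-- the product of the uniform measures on the unit balls -/
noncomputable def Pz {b : ℕ} {m : Fin b → ℕ} (N : ∀ i, E (m i) → ℝ) : Measure (∀ i, E (m i)) :=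
  Measure.pi fun i => un (ball (N i))

/-- the norm of the gradient with respect to the block `i` -/
noncomputable def gi {b : ℕ} {m : Fin b → ℕ} (f : (∀ i, E (m i)) → ℝ) (x : ∀ i, E (m i))
    (i : Fin b) : ℝ :=
  ‖(fderiv ℝ f x).comp (ContinuousLinearMap.single ℝ (fun i => E (m i)) i)‖

/-! ### the packages -/

/-- UB-TL. The points of the boundary of an isotropic body with the Poincare inequality have norm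
`O(√m)` with large probability. -/
def S_TL : Prop := ∀ c0 T ε : ℝ, 0 < c0 → 0 < T → 0 < ε → ∃ R : ℝ, 1 ≤ R ∧
  ∀ (m : ℕ) (N : E m → ℝ), 1 ≤ m → Blk c0 N → ∀ b : ℕ, 1 ≤ b → (1 + Real.log b) ^ 2 ≤ T * m →
  un (ball N) {z | R * Real.sqrt m * N z < ‖z‖} ≤ ENNReal.ofReal (ε / b)

/-- UB-BT. Concentration of the coordinates for the measure `Pt` (Prekopa-Leindler) -/
def S_BT : Prop := ∀ T ε : ℝ, 0 < T → 0 < ε → ∃ l : ℝ, 1 ≤ l ∧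
  ∀ (b : ℕ) (m : Fin b → ℕ) (D : Set (Fin b → ℝ)), UBd D → (∀ i, 2 ≤ m i) →
  (∀ i, (1 + Real.log b) ^ 2 ≤ T * m i) → ∀ i, ∃ M : ℝ, 0 < M ∧
  1 / 2 ≤ Pt m D {t | M ≤ t i} ∧ Pt m D {t | l * M < t i} ≤ ENNReal.ofReal (ε / b)

/-- UB-POL. Polar coordinates in the blocks -/
def S_POL : Prop := ∀ (b : ℕ) (m : Fin b → ℕ) (N : ∀ i, E (m i) → ℝ), (∀ i, 1 ≤ m i) →
  (∀ i, Nrm (N i)) → ∀ F : (∀ i, E (m i)) → ℝ≥0∞, Measurable F →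
  ∫⁻ x, F x = (∏ i, (m i : ℝ≥0∞)) * ∫⁻ t in {t : Fin b → ℝ | ∀ i, 0 < t i},
    ENNReal.ofReal (∏ i, t i ^ (m i - 1)) * ∫⁻ z in univ.pi fun i => ball (N i), F (Ph N t z)

/-- UB-AVG. Means over the body -/
def S_AVG : Prop := ∀ (b : ℕ) (m : Fin b → ℕ) (N : ∀ i, E (m i) → ℝ), (∀ i, 1 ≤ m i) →
  (∀ i, Nrm (N i)) → ∀ D : Set (Fin b → ℝ), UBd D →
  IsProbabilityMeasure (Pt m D) ∧ IsProbabilityMeasure (Pz N) ∧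
  IsProbabilityMeasure (un (bs N D)) ∧
  Measurable (fun p : (Fin b → ℝ) × (∀ i, E (m i)) => Ph N p.1 p.2) ∧
  ∀ F : (∀ i, E (m i)) → ℝ≥0∞, Measurable F →
  ∫⁻ x, F x ∂(un (bs N D)) = ∫⁻ t, ∫⁻ z, F (Ph N t z) ∂(Pz N) ∂(Pt m D)

/-- UB-ES. Efron-Stein inequality for product measures -/
def S_ES : Prop := ∀ (b : ℕ) (m : Fin b → ℕ) (ν : ∀ i, Measure (E (m i))),
  (∀ i, IsProbabilityMeasure (ν i)) → ∀ (H : (∀ i, E (m i)) → ℝ) (h : Fin b → (∀ i, E (m i)) → ℝ)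
  (C : ℝ), Measurable H → (∀ z, |H z| ≤ C) → (∀ i, Measurable (h i)) → (∀ i z, |h i z| ≤ C) →
  (∀ i z y, h i (Function.update z i y) = h i z) →
  ∫ z, (H z - ∫ z', H z' ∂(Measure.pi ν)) ^ 2 ∂(Measure.pi ν) ≤
    ∑ i, ∫ z, (H z - h i z) ^ 2 ∂(Measure.pi ν)

/-- UB-BL. The Brascamp-Lieb inequality for `Pt` -/
def S_BL : Prop := ∀ (b : ℕ) (m : Fin b → ℕ) (D : Set (Fin b → ℝ)) (T : Fin b → ℝ), UBd D →
  (∀ i, 2 ≤ m i) → (∀ i, 0 < T i) → (∀ t ∈ D, ∀ i, |t i| ≤ T i) →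
  ∀ f : (Fin b → ℝ) → ℝ, ContDiff ℝ 1 f → ∃ c : ℝ, ∫ t, (f t - c) ^ 2 ∂(Pt m D) ≤
    ∫ t, ∑ i, T i ^ 2 / (m i - 1) * (fderiv ℝ f t (Pi.single i 1)) ^ 2 ∂(Pt m D)

/-- UB-GB. The Poincare inequality in one block -/
def S_GB : Prop := ∀ (c0 : ℝ) (b : ℕ) (m : Fin b → ℕ) (N : ∀ i, E (m i) → ℝ)
  (D : Set (Fin b → ℝ)) (T : Fin b → ℝ), 0 < c0 → (∀ i, 1 ≤ m i) → (∀ i, Blk c0 (N i)) → UBd D →
  (∀ i, 0 < T i) → (∀ t ∈ D, ∀ i, |t i| ≤ T i) →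
  ∀ f : (∀ i, E (m i)) → ℝ, ContDiff ℝ 1 f → (∀ x, |f x| ≤ 1) → ∀ i,
  ∃ Q : (∀ i, E (m i)) → ℝ, Measurable Q ∧ (∀ x, |Q x| ≤ 1) ∧
  (∀ x y, Q (Function.update x i y) = Q x) ∧
  ∫ x, (f x - Q x) ^ 2 ∂(un (bs N D)) ≤ c0 * T i ^ 2 * ∫ x, gi f x i ^ 2 ∂(un (bs N D))

/-- UB-CV. Covariances -/
def S_CV : Prop := ∀ (c0 : ℝ) (b : ℕ) (m : Fin b → ℕ) (N : ∀ i, E (m i) → ℝ)
  (D : Set (Fin b → ℝ)), 0 < c0 → (∀ i, 1 ≤ m i) → (∀ i, Blk c0 (N i)) → UBd D →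
  (∀ i θ, ∫ x, ⟪x i, θ⟫_ℝ ∂(un (bs N D)) = 0) ∧
  (∀ i j θ θ', i ≠ j → ∫ x, ⟪x i, θ⟫_ℝ * ⟪x j, θ'⟫_ℝ ∂(un (bs N D)) = 0) ∧
  ∀ i (M : ℝ), 0 < M → 1 / 2 ≤ Pt m D {t | M ≤ t i} → ∀ θ,
    M ^ 2 / 2 * ‖θ‖ ^ 2 ≤ ∫ x, ⟪x i, θ⟫_ℝ ^ 2 ∂(un (bs N D))

/-! ### the assembly -/

/-- UB-CORE. Lipschitz functions on the bodies are nearly constant. -/
def S_CORE : Prop := ∀ c0 T δ : ℝ, 0 < c0 → 0 < T → 0 < δ → ∃ η C : ℝ, 0 < η ∧ 0 < C ∧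
  ∀ (b : ℕ) (m : Fin b → ℕ) (N : ∀ i, E (m i) → ℝ) (D : Set (Fin b → ℝ)), (∀ i, 2 ≤ m i) →
  (∀ i, Blk c0 (N i)) → UBd D → (∀ i, (1 + Real.log b) ^ 2 ≤ T * m i) →
  ∃ τ : Fin b → ℝ, (∀ i, 0 < τ i) ∧
  (∀ i θ, τ i ^ 2 * ‖θ‖ ^ 2 ≤ C * ∫ x, ⟪x i, θ⟫_ℝ ^ 2 ∂(un (bs N D))) ∧
  ∀ f : (∀ i, E (m i)) → ℝ, ContDiff ℝ 1 f → (∀ x, |f x| ≤ 1) →
  (∀ x, ∑ i, τ i ^ 2 * gi f x i ^ 2 ≤ η ^ 2) →
  (∫ x, f x ^ 2 ∂(un (bs N D))) - (∫ x, f x ∂(un (bs N D))) ^ 2 ≤ δ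

end Pool.Agent.U18.UB
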