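import Pool.Agent.U18.UB.Fin2
import Pool.Agent.U433.UB.TL
import Pool.Agent.U67.UB.POL
import Pool.Agent.U111.UB.AVG
import Pool.Agent.U27.UB.ES
import Pool.Agent.U186.UB.BL
import Pool.Agent.U818.UB.GB
import Pool.Agent.U810.UB.CV
import Pool.Agent.U433.UB.FSB

/-!
# Project UB: final assembly
-/

set_option autoImplicit false

namespace Pool.Agent.U18.UB

open MeasureTheory Set Filter Topology
open scoped ENNReal InnerProductSpace

theorem avg : S_AVG := Pool.Agent.U111.UB.AVG.t_AVG Pool.Agent.U67.UB.POL.t_POL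

theorem cv : S_CV := Pool.Agent.U810.UB.t_CV avg

theorem core2_full : S_CORE2 :=
  core2 Pool.Agent.U433.UB.t_TL t_BT2 avg Pool.Agent.U27.KUS.t_ES Pool.Agent.U186.UB.t_BL
    Pool.Agent.U818.UB.t_GB cv

theorem ccu2 : S_CCU2 := ccu core2_full cv Pool.Agent.U433.UB.t_FSB

end Pool.Agent.U18.UB
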