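import Pool.Agent.U18.UB.Stm

/-!
# Project UB: unconditional bodies, bounded functions
-/

set_option autoImplicit false

namespace Pool.Agent.U18.UB

open MeasureTheory Set Filter Topology
open scoped ENNReal InnerProductSpace

theorem ubd_ball {b : ℕ} {D : Set (Fin b → ℝ)} (h : UBd D) :
    ∃ r : ℝ, 0 < r ∧ Metric.ball (0 : Fin b → ℝ) r ⊆ D := by
  obtain ⟨x0, hx0⟩ := h.int
  obtain ⟨r, hr, hball⟩ := Metric.isOpen_iff.1 isOpen_interior x0 hx0
  obtain ⟨σ, hσ⟩ : ∃ σ : Fin b → ℝ, σ = fun i => if 0 ≤ x0 i then (r / 2 : ℝ) else -(r / 2) :=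
    ⟨_, rfl⟩
  have hσn : ‖σ‖ ≤ r / 2 := by
    rw [pi_norm_le_iff_of_nonneg (by positivity)]
    intro i
    rw [hσ]
    simp only
    split_ifs
    · rw [Real.norm_eq_abs, abs_of_pos (by positivity)]
    · rw [norm_neg, Real.norm_eq_abs, abs_of_pos (by positivity)]
  have h1 : x0 + σ ∈ D := by
    refine interior_subset (hball ?_)
    rw [Metric.mem_ball, dist_self_add_left]
    linarith
  refine ⟨r / 2, by positivity, fun s hs => h.unc _ h1 s fun i => ?_⟩
  rw [Metric.mem_ball, dist_zero_right] at hs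
  have h2 : |s i| < r / 2 := lt_of_le_of_lt (norm_le_pi_norm s i) hs
  have h3 : r / 2 ≤ |(x0 + σ) i| := by
    rw [Pi.add_apply, hσ]
    simp only
    split_ifs with h0
    · rw [abs_of_nonneg (by positivity)]
      linarith
    · rw [not_le] at h0
      rw [abs_of_neg (by linarith)]
      linarith
  linarith

theorem ubd_trunc {b : ℕ} {D : Set (Fin b → ℝ)} (h : UBd D) {T : Fin b → ℝ} (hT : ∀ i, 0 < T i) :
    UBd (D ∩ {t | ∀ i, |t i| ≤ T i}) := by
  have hcl : IsClosed {t : Fin b → ℝ | ∀ i, |t i| ≤ T i} := by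
    rw [setOf_forall]
    exact isClosed_iInter fun i => isClosed_le (continuous_apply i).abs continuous_const
  refine ⟨h.comp.inter_right hcl, h.conv.inter ?_, ?_, ?_⟩
  · intro x hx y hy p q hp hq hpq i
    have h1 := hx i
    have h2 := hy i
    have e : (p • x + q • y) i = p * x i + q * y i := by simp
    rw [e]
    calc |p * x i + q * y i| ≤ |p * x i| + |q * y i| := abs_add_le _ _
      _ = p * |x i| + q * |y i| := by rw [abs_mul, abs_mul, abs_of_nonneg hp, abs_of_nonneg hq]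
      _ ≤ p * T i + q * T i := add_le_add (mul_le_mul_of_nonneg_left h1 hp)
          (mul_le_mul_of_nonneg_left h2 hq)
      _ = T i := by rw [← add_mul, hpq, one_mul]
  · obtain ⟨r, hr, hb⟩ := ubd_ball h
    refine ⟨0, mem_interior_iff_mem_nhds.2 (inter_mem ?_ ?_)⟩
    · exact Filter.mem_of_superset (Metric.ball_mem_nhds 0 hr) hb
    · have : ∀ᶠ t : Fin b → ℝ in 𝓝 0, ∀ i, |t i| ≤ T i := by
        rw [eventually_all]
        intro i
        have hc : Continuous fun t : Fin b → ℝ => |t i| := (continuous_apply i).abs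
        have h0 : |(0 : Fin b → ℝ) i| < T i := by simpa using hT i
        exact (hc.continuousAt.eventually (gt_mem_nhds h0)).mono fun t ht => ht.le
      exact this
  · rintro t ⟨ht, ht2⟩ s hs
    exact ⟨h.unc t ht s hs, fun i => (hs i).trans (ht2 i)⟩

/-! ### bounded functions -/

section bdd

variable {α : Type} [MeasurableSpace α] (μ : Measure α) [IsProbabilityMeasure μ]

theorem ib {f : α → ℝ} (hf : Measurable f) {C : ℝ} (h : ∀ x, |f x| ≤ C) : Integrable f μ :=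
  Integrable.of_bound hf.aestronglyMeasurable C (Eventually.of_forall h)

theorem abs_int {f : α → ℝ} {C : ℝ} (h : ∀ x, |f x| ≤ C) : |∫ x, f x ∂μ| ≤ C := by
  have h1 := norm_integral_le_of_norm_le_const (μ := μ) (f := f) (C := C)
    (Eventually.of_forall h)
  simpa using h1

theorem var_shift {f : α → ℝ} (hf : Measurable f) {C : ℝ} (h : ∀ x, |f x| ≤ C) (a : ℝ) :
    ∫ x, (f x - a) ^ 2 ∂μ = ∫ x, (f x - ∫ u, f u ∂μ) ^ 2 ∂μ + (∫ u, f u ∂μ - a) ^ 2 := by
  set Φ : ℝ := ∫ u, f u ∂μ with hΦ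
  have hi : Integrable f μ := ib μ hf h
  have hb : |Φ| ≤ C := abs_int μ h
  have h1 : Integrable (fun x => (f x - Φ) ^ 2) μ := by
    refine ib μ ((hf.sub_const Φ).pow_const 2) (C := (C + C) ^ 2) fun x => ?_
    rw [abs_pow]
    exact pow_le_pow_left₀ (abs_nonneg _) ((abs_sub _ _).trans (add_le_add (h x) hb)) 2
  have h2 : Integrable (fun x => 2 * (Φ - a) * (f x - Φ)) μ :=
    (hi.sub (integrable_const Φ)).const_mul _
  have e : ∀ x, (f x - a) ^ 2 = ((f x - Φ) ^ 2 + 2 * (Φ - a) * (f x - Φ)) + (Φ - a) ^ 2 := by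
    intro x; ring
  have h12 : Integrable (fun x => (f x - Φ) ^ 2 + 2 * (Φ - a) * (f x - Φ)) μ := h1.add h2
  simp_rw [e]
  rw [integral_add h12 (integrable_const _), integral_add h1 h2, integral_const_mul,
    integral_sub hi (integrable_const Φ), integral_const, integral_const]
  simp [← hΦ]

theorem var_eq {f : α → ℝ} (hf : Measurable f) {C : ℝ} (h : ∀ x, |f x| ≤ C) :
    (∫ x, f x ^ 2 ∂μ) - (∫ x, f x ∂μ) ^ 2 = ∫ x, (f x - ∫ u, f u ∂μ) ^ 2 ∂μ := by
  have h1 := var_shift μ hf h 0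
  simp only [sub_zero] at h1
  rw [h1]
  ring

theorem var_le {f : α → ℝ} (hf : Measurable f) {C : ℝ} (h : ∀ x, |f x| ≤ C) (a : ℝ) :
    ∫ x, (f x - ∫ u, f u ∂μ) ^ 2 ∂μ ≤ ∫ x, (f x - a) ^ 2 ∂μ := by
  rw [var_shift μ hf h a]
  nlinarith [sq_nonneg (∫ u, f u ∂μ - a)]

theorem jensen {f : α → ℝ} (hf : Measurable f) {C : ℝ} (h : ∀ x, |f x| ≤ C) :
    (∫ u, f u ∂μ) ^ 2 ≤ ∫ x, f x ^ 2 ∂μ := by
  have h1 := var_eq μ hf h
  have : 0 ≤ ∫ x, (f x - ∫ u, f u ∂μ) ^ 2 ∂μ := integral_nonneg fun x => sq_nonneg _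
  linarith

end bdd

end Pool.Agent.U18.UB
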