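import Pool.Agent.U18.UB.Nm

/-!
# Project UB: the mean formula, the linear maps `t ↦ Ph N t z`
-/

set_option autoImplicit false

namespace Pool.Agent.U18.UB

open MeasureTheory Set Filter Topology
open scoped ENNReal InnerProductSpace

variable {b : ℕ} {m : Fin b → ℕ} {N : ∀ i, E (m i) → ℝ} {D : Set (Fin b → ℝ)}

theorem mu_eq (hAVG : S_AVG) (hm : ∀ i, 1 ≤ m i) (hN : ∀ i, Nrm (N i)) (hD : UBd D) :
    un (bs N D) = Measure.map (fun p : (Fin b → ℝ) × (∀ i, E (m i)) => Ph N p.1 p.2)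
      ((Pt m D).prod (Pz N)) := by
  obtain ⟨hP, hν, hμ, hΦ, hF⟩ := hAVG b m N hm hN D hD
  ext s hs
  rw [Measure.map_apply hΦ hs]
  have h1 := hF (s.indicator 1) (measurable_one.indicator hs)
  rw [lintegral_indicator_one hs] at h1
  rw [h1, Measure.prod_apply (hΦ hs)]
  refine lintegral_congr fun t => ?_
  have h2 : (fun z => s.indicator (1 : (∀ i, E (m i)) → ℝ≥0∞) (Ph N t z)) =
      (Prod.mk t ⁻¹' ((fun p : (Fin b → ℝ) × (∀ i, E (m i)) => Ph N p.1 p.2) ⁻¹' s)).indicator 1 := by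
    funext z
    by_cases hz : Ph N t z ∈ s
    · simp [indicator, hz]
    · simp [indicator, hz]
  rw [h2, lintegral_indicator_one (measurable_prodMk_left (hΦ hs))]

theorem mean_eq (hAVG : S_AVG) (hm : ∀ i, 1 ≤ m i) (hN : ∀ i, Nrm (N i)) (hD : UBd D)
    {F : (∀ i, E (m i)) → ℝ} (hF : Measurable F) {C : ℝ} (hC : ∀ x, |F x| ≤ C) :
    ∫ x, F x ∂(un (bs N D)) = ∫ z, ∫ t, F (Ph N t z) ∂(Pt m D) ∂(Pz N) := by
  have hμ := mu_eq hAVG hm hN hD
  obtain ⟨hP, hν, hμ', hΦ, -⟩ := hAVG b m N hm hN D hD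
  rw [hμ, integral_map hΦ.aemeasurable hF.aestronglyMeasurable, integral_prod_symm]
  exact ib _ (hF.comp hΦ) fun p => hC _

/-- the direction of `z_i` -/
noncomputable def dv (N : ∀ i, E (m i) → ℝ) (z : ∀ i, E (m i)) (i : Fin b) : E (m i) :=
  (N i (z i))⁻¹ • z i

/-- the linear map `t ↦ Ph N t z` -/
noncomputable def Lz (N : ∀ i, E (m i) → ℝ) (z : ∀ i, E (m i)) :
    (Fin b → ℝ) →L[ℝ] (∀ i, E (m i)) :=
  ContinuousLinearMap.pi fun i =>
    (ContinuousLinearMap.proj (R := ℝ) (φ := fun _ : Fin b => ℝ) i).smulRight (dv N z i)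

theorem Lz_apply (z : ∀ i, E (m i)) (t : Fin b → ℝ) : Lz N z t = Ph N t z := by
  funext i
  simp [Lz, Ph, dv, div_eq_mul_inv, mul_smul]

theorem Lz_single (z : ∀ i, E (m i)) (i : Fin b) :
    Lz N z (Pi.single i 1) = ContinuousLinearMap.single ℝ (fun i => E (m i)) i (dv N z i) := by
  funext j
  simp only [Lz, ContinuousLinearMap.coe_pi', ContinuousLinearMap.smulRight_apply,
    ContinuousLinearMap.proj_apply, ContinuousLinearMap.single_apply]
  by_cases h : j = i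
  · subst h
    simp
  · simp [h]

theorem dv_norm (hN : ∀ i, Nrm (N i)) (z : ∀ i, E (m i)) (i : Fin b) {r : ℝ} (hr : 0 ≤ r)
    (h : ‖z i‖ ≤ r * N i (z i)) : ‖dv N z i‖ ≤ r := by
  unfold dv
  have h0 := (hN i).nonneg (z i)
  rw [norm_smul, norm_inv, Real.norm_eq_abs, abs_of_nonneg h0]
  rcases h0.eq_or_lt with h1 | h1
  · rw [← h1, inv_zero, zero_mul]
    exact hr
  · rw [inv_mul_eq_div, div_le_iff₀ h1]
    exact h

theorem fd_le {f : (∀ i, E (m i)) → ℝ} (hf : ContDiff ℝ 1 f) (z : ∀ i, E (m i)) (t : Fin b → ℝ)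
    (i : Fin b) : |fderiv ℝ (fun t => f (Ph N t z)) t (Pi.single i 1)| ≤
      gi f (Ph N t z) i * ‖dv N z i‖ := by
  have e : (fun t => f (Ph N t z)) = fun t => f (Lz N z t) := by
    funext t
    rw [Lz_apply]
  have h1 : HasFDerivAt f (fderiv ℝ f (Lz N z t)) (Lz N z t) :=
    ((hf.differentiable one_ne_zero) _).hasFDerivAt
  have h2 : fderiv ℝ (fun t => f (Lz N z t)) t = (fderiv ℝ f (Lz N z t)).comp (Lz N z) :=
    (h1.comp t (Lz N z).hasFDerivAt).fderiv
  rw [e, h2, ContinuousLinearMap.comp_apply, Lz_single, Lz_apply]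
  have h3 := ((fderiv ℝ f (Ph N t z)).comp
    (ContinuousLinearMap.single ℝ (fun i => E (m i)) i)).le_opNorm (dv N z i)
  rwa [Real.norm_eq_abs] at h3

theorem cd_t {f : (∀ i, E (m i)) → ℝ} (hf : ContDiff ℝ 1 f) (z : ∀ i, E (m i)) :
    ContDiff ℝ 1 fun t => f (Ph N t z) := by
  have e : (fun t => f (Ph N t z)) = fun t => f (Lz N z t) := by
    funext t
    rw [Lz_apply]
  rw [e]
  exact hf.comp (Lz N z).contDiff

theorem gi_cont {f : (∀ i, E (m i)) → ℝ} (hf : ContDiff ℝ 1 f) (i : Fin b) :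
    Continuous fun x => gi f x i := by
  unfold gi
  exact ((hf.continuous_fderiv one_ne_zero).clm_comp continuous_const).norm

theorem gi_nonneg (f : (∀ i, E (m i)) → ℝ) (x : ∀ i, E (m i)) (i : Fin b) : 0 ≤ gi f x i :=
  norm_nonneg _

theorem ph_update (t : Fin b → ℝ) (z : ∀ i, E (m i)) (i : Fin b) (y : E (m i)) :
    Ph N t (Function.update z i y) = Function.update (Ph N t z) i ((t i / N i y) • y) := by
  funext j
  by_cases h : j = i
  · subst h
    simp [Ph]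
  · simp [Ph, h]

end Pool.Agent.U18.UB
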