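import Pool.Agent.U18.UB.Cor1

/-!
# Project UB: the variance on a truncated body
-/

set_option autoImplicit false

namespace Pool.Agent.U18.UB

open MeasureTheory Set Filter Topology
open scoped ENNReal InnerProductSpace

variable {b : ℕ} {m : Fin b → ℕ} {N : ∀ i, E (m i) → ℝ} {D : Set (Fin b → ℝ)}

/-- the set of bad directions -/
def bad (N : ∀ i, E (m i) → ℝ) (R : ℝ) : Set (∀ i, E (m i)) :=
  {z | ∃ i, R * Real.sqrt (m i) * N i (z i) < ‖z i‖}

theorem bad_eq (N : ∀ i, E (m i) → ℝ) (R : ℝ) : bad N R =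
    ⋃ i, (Function.eval i) ⁻¹' {z : E (m i) | R * Real.sqrt (m i) * N i z < ‖z‖} := by
  ext z
  simp [bad]

theorem bad_meas (hN : ∀ i, Nrm (N i)) (R : ℝ) : MeasurableSet (bad N R) := by
  rw [bad_eq]
  refine MeasurableSet.iUnion fun i => (measurable_pi_apply i) ?_
  exact measurableSet_lt (((hN i).cont.measurable).const_mul _) measurable_norm

theorem bad_le (hN : ∀ i, Nrm (N i)) {R ε : ℝ} (hε : 0 ≤ ε)
    (h : ∀ i, un (ball (N i)) {z | R * Real.sqrt (m i) * N i z < ‖z‖} ≤ ENNReal.ofReal (ε / b)) :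
    (Pz N).real (bad N R) ≤ ε := by
  have hp : ∀ i, IsProbabilityMeasure (un (ball (N i))) := fun i => (hN i).prob
  have h1 : Pz N (bad N R) ≤ ENNReal.ofReal ε := by
    rw [bad_eq]
    refine (measure_iUnion_fintype_le _ _).trans ?_
    have h2 : ∀ i, Pz N ((Function.eval i) ⁻¹'
        {z : E (m i) | R * Real.sqrt (m i) * N i z < ‖z‖}) ≤ ENNReal.ofReal (ε / b) := by
      intro i
      have hm : MeasurableSet {z : E (m i) | R * Real.sqrt (m i) * N i z < ‖z‖} :=
        measurableSet_lt (((hN i).cont.measurable).const_mul _) measurable_norm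
      unfold Pz
      rw [(measurePreserving_eval (fun i => un (ball (N i))) i).measure_preimage
        hm.nullMeasurableSet]
      exact h i
    refine (Finset.sum_le_sum fun i _ => h2 i).trans ?_
    rw [Finset.sum_const, Finset.card_univ, Fintype.card_fin, nsmul_eq_mul]
    rcases Nat.eq_zero_or_pos b with h0 | h0
    · rw [h0]
      simp
    · rw [← ENNReal.ofReal_natCast, ← ENNReal.ofReal_mul (by positivity)]
      refine ENNReal.ofReal_le_ofReal (le_of_eq ?_)
      have : (b : ℝ) ≠ 0 := by positivity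
      field_simp
  have h3 := ENNReal.toReal_mono ENNReal.ofReal_ne_top h1
  rw [ENNReal.toReal_ofReal hε] at h3
  exact h3

theorem var_small (hAVG : S_AVG) (hES : S_ES) (hBL : S_BL) (hGB : S_GB) {c0 R ε η : ℝ}
    (hc0 : 0 < c0) (hR : 0 ≤ R) (hε : 0 ≤ ε) (hm : ∀ i, 2 ≤ m i) (hB : ∀ i, Blk c0 (N i))
    (hD : UBd D) {T : Fin b → ℝ} (hT : ∀ i, 0 < T i) (hTD : ∀ t ∈ D, ∀ i, |t i| ≤ T i)
    (htl : ∀ i, un (ball (N i)) {z | R * Real.sqrt (m i) * N i z < ‖z‖} ≤
      ENNReal.ofReal (ε / b)) {f : (∀ i, E (m i)) → ℝ} (hf : ContDiff ℝ 1 f)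
    (hfb : ∀ x, |f x| ≤ 1) (hg : ∀ x, ∑ i, T i ^ 2 * gi f x i ^ 2 ≤ η ^ 2) :
    ∃ a : ℝ, |a| ≤ 1 ∧ ∫ x, (f x - a) ^ 2 ∂(un (bs N D)) ≤
      2 * R ^ 2 * η ^ 2 + ε + c0 * η ^ 2 := by
  have hN : ∀ i, Nrm (N i) := fun i => (hB i).nrm
  have hm1 : ∀ i, 1 ≤ m i := fun i => by have := hm i; omega
  obtain ⟨hP, hν, hμ, hΦ, -⟩ := hAVG b m N hm1 hN D hD
  have hME := @mean_eq b m N D hAVG hm1 hN hD
  obtain ⟨P, hPe⟩ : ∃ P, P = Pt m D := ⟨_, rfl⟩
  obtain ⟨ν, hνe⟩ : ∃ ν, ν = Pz N := ⟨_, rfl⟩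
  obtain ⟨μ, hμe⟩ : ∃ μ, μ = un (bs N D) := ⟨_, rfl⟩
  rw [← hPe] at hP
  rw [← hνe] at hν
  rw [← hμe] at hμ
  rw [← hPe, ← hνe, ← hμe] at hME
  rw [← hμe]
  have hfm : Measurable f := hf.continuous.measurable
  have hgm : Measurable fun p : (Fin b → ℝ) × (∀ i, E (m i)) => f (Ph N p.1 p.2) := hfm.comp hΦ
  have hgt : ∀ z, Measurable fun t => f (Ph N t z) := fun z => hgm.comp measurable_prodMk_right
  obtain ⟨H, hH⟩ : ∃ H : (∀ i, E (m i)) → ℝ, H = fun z => ∫ t, f (Ph N t z) ∂P := ⟨_, rfl⟩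
  have hHm : Measurable H := by
    rw [hH]
    exact hgm.stronglyMeasurable.integral_prod_left'.measurable
  have hHb : ∀ z, |H z| ≤ 1 := by
    intro z
    rw [hH]
    exact abs_int P fun t => hfb _
  obtain ⟨a, ha⟩ : ∃ a : ℝ, a = ∫ z, H z ∂ν := ⟨_, rfl⟩
  have hab : |a| ≤ 1 := by rw [ha]; exact abs_int ν hHb
  refine ⟨a, hab, ?_⟩
  have hsq : ∀ u v : ℝ, |u| ≤ 1 → |v| ≤ 1 → |(u - v) ^ 2| ≤ 4 := by
    intro u v hu hv
    rw [abs_pow]
    have h1 : |u - v| ≤ 2 := (abs_sub _ _).trans (by linarith)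
    have h2 := pow_le_pow_left₀ (abs_nonneg _) h1 2
    norm_num at h2 ⊢
    exact h2
  -- the decomposition
  have e1 : ∫ x, (f x - a) ^ 2 ∂μ = ∫ z, ∫ t, (f (Ph N t z) - a) ^ 2 ∂P ∂ν :=
    hME ((hfm.sub_const a).pow_const 2) (C := 4) fun x => hsq _ _ (hfb x) hab
  have e2 : ∀ z, ∫ t, (f (Ph N t z) - a) ^ 2 ∂P =
      ∫ t, (f (Ph N t z) - H z) ^ 2 ∂P + (H z - a) ^ 2 := by
    intro z
    rw [var_shift P (hgt z) (fun t => hfb _) a, hH]
  have hVm : Measurable fun z => ∫ t, (f (Ph N t z) - H z) ^ 2 ∂P := by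
    have h1 : Measurable fun p : (Fin b → ℝ) × (∀ i, E (m i)) => (f (Ph N p.1 p.2) - H p.2) ^ 2 :=
      (hgm.sub (hHm.comp measurable_snd)).pow_const 2
    exact h1.stronglyMeasurable.integral_prod_left'.measurable
  have hVb : ∀ z, |∫ t, (f (Ph N t z) - H z) ^ 2 ∂P| ≤ 4 := fun z =>
    abs_int P fun t => hsq _ _ (hfb _) (hHb z)
  have e3 : ∫ x, (f x - a) ^ 2 ∂μ = ∫ z, ∫ t, (f (Ph N t z) - H z) ^ 2 ∂P ∂ν +
      ∫ z, (H z - a) ^ 2 ∂ν := by
    rw [e1]
    simp only [e2]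
    exact integral_add (ib ν hVm hVb) (ib ν ((hHm.sub_const a).pow_const 2) (C := 4)
      fun z => hsq _ _ (hHb z) hab)
  -- first part
  have hV1 : ∀ z, ∫ t, (f (Ph N t z) - H z) ^ 2 ∂P ≤ 1 := by
    intro z
    have h1 := var_eq P (hgt z) (fun t => hfb _)
    have h2 : H z = ∫ t, f (Ph N t z) ∂P := by rw [hH]
    rw [← h2] at h1
    rw [← h1]
    have h3 : ∫ t, f (Ph N t z) ^ 2 ∂P ≤ ∫ _, (1 : ℝ) ∂P := by
      refine integral_mono_of_nonneg (Eventually.of_forall fun t => sq_nonneg _)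
        (integrable_const _) (Eventually.of_forall fun t => ?_)
      have := hfb (Ph N t z)
      simp only
      rw [← sq_abs]
      nlinarith [abs_nonneg (f (Ph N t z))]
    simp only [integral_const, probReal_univ, smul_eq_mul, mul_one] at h3
    nlinarith [sq_nonneg (H z)]
  have hV2 : ∀ z, z ∉ bad N R → ∫ t, (f (Ph N t z) - H z) ^ 2 ∂P ≤ 2 * R ^ 2 * η ^ 2 := by
    intro z hz
    have hz' : ∀ i, ‖z i‖ ≤ R * Real.sqrt (m i) * N i (z i) := by
      intro i
      by_contra h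
      exact hz ⟨i, not_le.1 h⟩
    obtain ⟨c, hc⟩ := hBL b m D T hD hm hT hTD (fun t => f (Ph N t z)) (cd_t hf z)
    rw [← hPe] at hc
    have h1 : ∫ t, (f (Ph N t z) - H z) ^ 2 ∂P ≤ ∫ t, (f (Ph N t z) - c) ^ 2 ∂P := by
      rw [hH]
      exact var_le P (hgt z) (fun t => hfb _) c
    refine h1.trans (hc.trans ?_)
    have h2 : ∀ t, ∑ i, T i ^ 2 / ((m i : ℝ) - 1) *
        (fderiv ℝ (fun t => f (Ph N t z)) t (Pi.single i 1)) ^ 2 ≤ 2 * R ^ 2 * η ^ 2 := by
      intro t
      calc _ ≤ ∑ i, 2 * R ^ 2 * (T i ^ 2 * gi f (Ph N t z) i ^ 2) := by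
            refine Finset.sum_le_sum fun i _ => ?_
            have hmi : (2 : ℝ) ≤ m i := by exact_mod_cast hm i
            have h3 := fd_le (N := N) hf z t i
            have h4 : ‖dv N z i‖ ≤ R * Real.sqrt (m i) :=
              dv_norm hN z i (by positivity) (hz' i)
            have h5 : |fderiv ℝ (fun t => f (Ph N t z)) t (Pi.single i 1)| ≤
                gi f (Ph N t z) i * (R * Real.sqrt (m i)) :=
              h3.trans (mul_le_mul_of_nonneg_left h4 (gi_nonneg _ _ _))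
            have h6 := pow_le_pow_left₀ (abs_nonneg _) h5 2
            rw [sq_abs, mul_pow, mul_pow, Real.sq_sqrt (by positivity)] at h6
            have h7 : T i ^ 2 / ((m i : ℝ) - 1) * (m i) ≤ 2 * T i ^ 2 := by
              rw [div_mul_eq_mul_div, div_le_iff₀ (by linarith)]
              nlinarith [sq_nonneg (T i)]
            calc _ ≤ T i ^ 2 / ((m i : ℝ) - 1) * (gi f (Ph N t z) i ^ 2 * (R ^ 2 * m i)) :=
                  mul_le_mul_of_nonneg_left h6 (div_nonneg (sq_nonneg _) (by linarith))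
              _ = (T i ^ 2 / ((m i : ℝ) - 1) * m i) * (gi f (Ph N t z) i ^ 2 * R ^ 2) := by ring
              _ ≤ (2 * T i ^ 2) * (gi f (Ph N t z) i ^ 2 * R ^ 2) :=
                  mul_le_mul_of_nonneg_right h7 (by positivity)
              _ = _ := by ring
        _ = 2 * R ^ 2 * ∑ i, T i ^ 2 * gi f (Ph N t z) i ^ 2 := by rw [Finset.mul_sum]
        _ ≤ 2 * R ^ 2 * η ^ 2 := mul_le_mul_of_nonneg_left (hg _) (by positivity)
    calc _ ≤ ∫ _, 2 * R ^ 2 * η ^ 2 ∂P := by
          refine integral_mono_of_nonneg (Eventually.of_forall fun t => ?_)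
            (integrable_const _) (Eventually.of_forall h2)
          refine Finset.sum_nonneg fun i _ => mul_nonneg (div_nonneg (sq_nonneg _) ?_) (sq_nonneg _)
          have hmi : (2 : ℝ) ≤ m i := by exact_mod_cast hm i
          linarith
      _ = _ := by simp
  have hbm := bad_meas (m := m) hN R
  have p1 : ∫ z, ∫ t, (f (Ph N t z) - H z) ^ 2 ∂P ∂ν ≤ 2 * R ^ 2 * η ^ 2 + ε := by
    have h1 : ∀ z, ∫ t, (f (Ph N t z) - H z) ^ 2 ∂P ≤
        2 * R ^ 2 * η ^ 2 + (bad N R).indicator (fun _ => (1 : ℝ)) z := by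
      intro z
      by_cases hz : z ∈ bad N R
      · rw [indicator_of_mem hz]
        have : 0 ≤ 2 * R ^ 2 * η ^ 2 := by positivity
        linarith [hV1 z]
      · rw [indicator_of_notMem hz, add_zero]
        exact hV2 z hz
    have h2 : Integrable ((bad N R).indicator fun _ => (1 : ℝ)) ν :=
      (integrable_const _).indicator hbm
    calc _ ≤ ∫ z, (2 * R ^ 2 * η ^ 2 + (bad N R).indicator (fun _ => (1 : ℝ)) z) ∂ν :=
          integral_mono (ib ν hVm hVb) ((integrable_const _).add h2) h1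
      _ = 2 * R ^ 2 * η ^ 2 + ν.real (bad N R) := by
          rw [integral_add (integrable_const _) h2, integral_indicator_const _ hbm]
          simp
      _ ≤ _ := by
          rw [hνe]
          exact add_le_add le_rfl (bad_le hN hε htl)
  -- second part
  have p2 : ∫ z, (H z - a) ^ 2 ∂ν ≤ c0 * η ^ 2 := by
    choose Q hQm hQb hQu hQi using hGB c0 b m N D T hc0 hm1 hB hD hT hTD f hf hfb
    rw [← hμe] at hQi
    have hQt : ∀ i, Measurable fun p : (Fin b → ℝ) × (∀ i, E (m i)) => Q i (Ph N p.1 p.2) :=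
      fun i => (hQm i).comp hΦ
    have hE := hES b m (fun i => un (ball (N i))) (fun i => (hN i).prob) H
      (fun i z => ∫ t, Q i (Ph N t z) ∂P) 1 hHm hHb
      (fun i => (hQt i).stronglyMeasurable.integral_prod_left'.measurable)
      (fun i z => abs_int P fun t => hQb i _) (fun i z y => by
        simp only [ph_update, hQu])
    have hνe' : Measure.pi (fun i => un (ball (N i))) = ν := by rw [hνe]; rfl
    rw [hνe', ← ha] at hE
    refine hE.trans ?_
    have h1 : ∀ i, ∫ z, (H z - ∫ t, Q i (Ph N t z) ∂P) ^ 2 ∂ν ≤ ∫ x, (f x - Q i x) ^ 2 ∂μ := by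
      intro i
      have h0 := hME (F := fun x => (f x - Q i x) ^ 2) ((hfm.sub (hQm i)).pow_const 2) (C := 4)
        fun x => hsq _ _ (hfb x) (hQb i x)
      rw [h0]
      have hm2 : Measurable fun p : (Fin b → ℝ) × (∀ i, E (m i)) =>
          (f (Ph N p.1 p.2) - Q i (Ph N p.1 p.2)) ^ 2 := (hgm.sub (hQt i)).pow_const 2
      refine integral_mono_of_nonneg (Eventually.of_forall fun z => sq_nonneg _)
        (ib ν hm2.stronglyMeasurable.integral_prod_left'.measurable (C := 4) fun z =>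
          abs_int P fun t => hsq _ _ (hfb _) (hQb i _)) (Eventually.of_forall fun z => ?_)
      simp only
      have hQz : Measurable fun t => Q i (Ph N t z) := (hQt i).comp measurable_prodMk_right
      have h2 : H z - ∫ t, Q i (Ph N t z) ∂P = ∫ t, (f (Ph N t z) - Q i (Ph N t z)) ∂P := by
        rw [hH]
        exact (integral_sub (ib P (hgt z) fun t => hfb _) (ib P hQz fun t => hQb i _)).symm
      rw [h2]
      exact jensen P ((hgt z).sub hQz) (C := 2) fun t =>
        (abs_sub _ _).trans (by linarith [hfb (Ph N t z), hQb i (Ph N t z)])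
    have hgb : ∀ i x, |gi f x i ^ 2| ≤ η ^ 2 / T i ^ 2 := by
      intro i x
      rw [abs_of_nonneg (sq_nonneg _), le_div_iff₀ (by have := hT i; positivity), mul_comm]
      refine le_trans ?_ (hg x)
      exact Finset.single_le_sum (f := fun i => T i ^ 2 * gi f x i ^ 2)
        (fun j _ => by positivity) (Finset.mem_univ i)
    have hgI : ∀ i, Integrable (fun x => gi f x i ^ 2) μ := fun i =>
      ib μ ((gi_cont hf i).measurable.pow_const 2) (hgb i)
    calc _ ≤ ∑ i, c0 * T i ^ 2 * ∫ x, gi f x i ^ 2 ∂μ :=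
          Finset.sum_le_sum fun i _ => (h1 i).trans (hQi i)
      _ = c0 * ∫ x, ∑ i, T i ^ 2 * gi f x i ^ 2 ∂μ := by
          rw [integral_finsetSum _ fun i _ => (hgI i).const_mul _, Finset.mul_sum]
          refine Finset.sum_congr rfl fun i _ => ?_
          rw [integral_const_mul]
          ring
      _ ≤ c0 * ∫ _, η ^ 2 ∂μ := by
          refine mul_le_mul_of_nonneg_left ?_ hc0.le
          exact integral_mono_of_nonneg (Eventually.of_forall fun x =>
            Finset.sum_nonneg fun i _ => by positivity) (integrable_const _)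
            (Eventually.of_forall hg)
      _ = c0 * η ^ 2 := by simp
  rw [e3]
  linarith

end Pool.Agent.U18.UB
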