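import Pool.Agent.U18.UB.Cor2

/-!
# Project UB: the assembly of `S_CORE`
-/

set_option autoImplicit false

namespace Pool.Agent.U18.UB

open MeasureTheory Set Filter Topology
open scoped ENNReal InnerProductSpace

variable {b : ℕ} {m : Fin b → ℕ} {N : ∀ i, E (m i) → ℝ} {D : Set (Fin b → ℝ)}

theorem supp_meas (hD : UBd D) : MeasurableSet {t : Fin b → ℝ | t ∈ D ∧ ∀ i, 0 ≤ t i} := by
  have h2 : IsClosed {t : Fin b → ℝ | ∀ i, 0 ≤ t i} := by
    rw [ofPred_forall]
    exact isClosed_iInter fun i => isClosed_le continuous_const (continuous_apply i)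
  exact hD.comp.isClosed.measurableSet.inter h2.measurableSet

theorem pt_supp (m : Fin b → ℕ) (hD : UBd D) :
    Pt m D {t | t ∈ D ∧ ∀ i, 0 ≤ t i}ᶜ = 0 := by
  unfold Pt
  rw [Measure.smul_apply, withDensity_apply _ (supp_meas hD).compl]
  have h : ∫⁻ t in {t | t ∈ D ∧ ∀ i, 0 ≤ t i}ᶜ, ENNReal.ofReal (wt m D t) = 0 := by
    rw [setLIntegral_congr_fun (g := fun _ => 0) (supp_meas hD).compl]
    · simp
    · intro t ht
      have ht' : t ∉ {t | t ∈ D ∧ ∀ i, 0 ≤ t i} := ht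
      simp only [wt, indicator_of_notMem ht', ENNReal.ofReal_zero]
  rw [h, smul_zero]

theorem sum_eps {ε : ℝ} (b : ℕ) : ∑ _i : Fin b, ENNReal.ofReal (ε / b) ≤ ENNReal.ofReal ε := by
  rw [Finset.sum_const, Finset.card_univ, Fintype.card_fin, nsmul_eq_mul]
  rcases Nat.eq_zero_or_pos b with h0 | h0
  · rw [h0]
    simp
  · rw [← ENNReal.ofReal_natCast, ← ENNReal.ofReal_mul (by positivity)]
    refine ENNReal.ofReal_le_ofReal (le_of_eq ?_)
    have : (b : ℝ) ≠ 0 := by positivity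
    field_simp

theorem out_le (hAVG : S_AVG) (hm : ∀ i, 1 ≤ m i) (hN : ∀ i, Nrm (N i)) (hD : UBd D)
    {T : Fin b → ℝ} {ε : ℝ}
    (h : ∀ i, Pt m D {t | T i < t i} ≤ ENNReal.ofReal (ε / b)) :
    un (bs N D) (bs N (D ∩ {t | ∀ i, |t i| ≤ T i}))ᶜ ≤ ENNReal.ofReal ε := by
  have hμ := mu_eq hAVG hm hN hD
  obtain ⟨hP, hν, hμ', hΦ, -⟩ := hAVG b m N hm hN D hD
  have hcl : IsClosed (D ∩ {t : Fin b → ℝ | ∀ i, |t i| ≤ T i}) := by
    refine hD.comp.isClosed.inter ?_
    rw [ofPred_forall]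
    exact isClosed_iInter fun i => isClosed_le (continuous_apply i).abs continuous_const
  have hc : Continuous fun x : ∀ i, E (m i) => fun i => N i (x i) :=
    continuous_pi fun i => (hN i).cont.comp (continuous_apply i)
  have hms : MeasurableSet (bs N (D ∩ {t | ∀ i, |t i| ≤ T i})) :=
    (hcl.preimage hc).measurableSet
  rw [hμ, Measure.map_apply hΦ hms.compl]
  have hsub : (fun p : (Fin b → ℝ) × (∀ i, E (m i)) => Ph N p.1 p.2) ⁻¹'
      (bs N (D ∩ {t | ∀ i, |t i| ≤ T i}))ᶜ ⊆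
      ({t | t ∈ D ∧ ∀ i, 0 ≤ t i}ᶜ ∪ ⋃ i, {t : Fin b → ℝ | T i < t i}) ×ˢ univ := by
    rintro ⟨t, z⟩ hp
    refine ⟨?_, mem_univ _⟩
    by_contra hno
    rw [mem_union, not_or] at hno
    obtain ⟨h1, h2⟩ := hno
    have h1' : t ∈ D ∧ ∀ i, 0 ≤ t i := by
      by_contra h
      exact h1 h
    have h2' : ∀ i, t i ≤ T i := by
      intro i
      by_contra h
      exact h2 (mem_iUnion.2 ⟨i, not_le.1 h⟩)
    have h3 : ∀ i, |N i (Ph N t z i)| ≤ |t i| := by
      intro i
      rw [abs_of_nonneg ((hN i).nonneg _)]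
      unfold Ph
      rw [(hN i).smul, abs_div, abs_of_nonneg ((hN i).nonneg (z i))]
      rcases ((hN i).nonneg (z i)).eq_or_lt with h0 | h0
      · rw [← h0]
        simp
      · rw [div_mul_cancel₀ _ h0.ne']
    refine hp ⟨hD.unc t h1'.1 _ h3, fun i => (h3 i).trans ?_⟩
    rw [abs_of_nonneg (h1'.2 i)]
    exact h2' i
  refine (measure_mono hsub).trans ?_
  rw [Measure.prod_prod, measure_univ, mul_one]
  refine (measure_union_le _ _).trans ?_
  rw [pt_supp m hD, zero_add]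
  refine (measure_iUnion_fintype_le _ _).trans ?_
  exact (Finset.sum_le_sum fun i _ => h i).trans (sum_eps b)

theorem core (hTL : S_TL) (hBT : S_BT) (hAVG : S_AVG) (hES : S_ES) (hBL : S_BL) (hGB : S_GB)
    (hCV : S_CV) : S_CORE := by
  intro c0 T δ hc0 hT hδ
  obtain ⟨R, hR1, hTLR⟩ := hTL c0 T (δ / 10) hc0 hT (by positivity)
  obtain ⟨l, hl, hBTl⟩ := hBT T (δ / 10) hT (by positivity)
  refine ⟨Real.sqrt (δ / (2 * (2 * R ^ 2 + c0))), 2 * l ^ 2, by positivity, by positivity, ?_⟩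
  intro b m N D hm hB hD hb
  choose M hM0 hM1 hM2 using hBTl b m D hD hm hb
  have hN : ∀ i, Nrm (N i) := fun i => (hB i).nrm
  have hm1 : ∀ i, 1 ≤ m i := fun i => by have := hm i; omega
  have hτ : ∀ i, 0 < l * M i := fun i => mul_pos (by linarith) (hM0 i)
  refine ⟨fun i => l * M i, hτ, fun i θ => ?_, fun f hf hfb hg => ?_⟩
  · have h1 := (hCV c0 b m N D hc0 hm1 hB hD).2.2 i (M i) (hM0 i) (hM1 i) θ
    calc (l * M i) ^ 2 * ‖θ‖ ^ 2 = 2 * l ^ 2 * (M i ^ 2 / 2 * ‖θ‖ ^ 2) := by ring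
      _ ≤ _ := mul_le_mul_of_nonneg_left h1 (by positivity)
  obtain ⟨D1, hD1⟩ : ∃ D1 : Set (Fin b → ℝ), D1 = D ∩ {t | ∀ i, |t i| ≤ l * M i} := ⟨_, rfl⟩
  have hD1b : UBd D1 := by
    rw [hD1]
    exact ubd_trunc hD hτ
  have htl : ∀ i, un (ball (N i)) {z | R * Real.sqrt (m i) * N i z < ‖z‖} ≤
      ENNReal.ofReal (δ / 10 / b) := by
    intro i
    have hb1 : 1 ≤ b := by have := i.2; omega
    exact hTLR (m i) (N i) (hm1 i) (hB i) b hb1 (hb i)
  obtain ⟨a, ha, hva⟩ := var_small hAVG hES hBL hGB hc0 (by linarith) (by positivity) hm hB hD1b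
    hτ (fun t ht i => by rw [hD1] at ht; exact ht.2 i) htl hf hfb hg
  obtain ⟨-, -, hμ, -, -⟩ := hAVG b m N hm1 hN D hD
  obtain ⟨-, -, hμ1, -, -⟩ := hAVG b m N hm1 hN D1 hD1b
  have hfm : Measurable f := hf.continuous.measurable
  rw [var_eq _ hfm hfb]
  refine (var_le _ hfm hfb a).trans ?_
  have hsub : bs N D1 ⊆ bs N D := by
    intro x hx
    rw [hD1] at hx
    exact hx.1
  have hc : Continuous fun x : ∀ i, E (m i) => fun i => N i (x i) :=
    continuous_pi fun i => (hN i).cont.comp (continuous_apply i)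
  have hms : MeasurableSet (bs N D1) := (hD1b.comp.isClosed.preimage hc).measurableSet
  have hle : un (bs N D) ≤ un (bs N D1) + (un (bs N D)).restrict (bs N D1)ᶜ := by
    have h1 : (un (bs N D)).restrict (bs N D1) ≤ un (bs N D1) := by
      unfold un
      rw [Measure.restrict_smul, Measure.restrict_restrict hms,
        inter_eq_self_of_subset_left hsub]
      have h2 : (volume (bs N D))⁻¹ ≤ (volume (bs N D1))⁻¹ :=
        ENNReal.inv_le_inv.2 (measure_mono hsub)
      intro s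
      rw [Measure.smul_apply, Measure.smul_apply]
      exact mul_le_mul_left h2 _
    calc un (bs N D) = (un (bs N D)).restrict (bs N D1) + (un (bs N D)).restrict (bs N D1)ᶜ :=
          (Measure.restrict_add_restrict_compl hms).symm
      _ ≤ _ := add_le_add h1 le_rfl
  have hgm : Measurable fun x => (f x - a) ^ 2 := (hfm.sub_const a).pow_const 2
  have hgb : ∀ x, |(f x - a) ^ 2| ≤ 4 := by
    intro x
    rw [abs_pow]
    have h1 : |f x - a| ≤ 2 := (abs_sub _ _).trans (by linarith [hfb x])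
    have h2 := pow_le_pow_left₀ (abs_nonneg _) h1 2
    norm_num at h2 ⊢
    exact h2
  have hI0 : Integrable (fun x => (f x - a) ^ 2) (un (bs N D)) := ib _ hgm hgb
  have hI1 : Integrable (fun x => (f x - a) ^ 2) (un (bs N D1)) := ib _ hgm hgb
  have hI2 : Integrable (fun x => (f x - a) ^ 2) ((un (bs N D)).restrict (bs N D1)ᶜ) :=
    hI0.restrict
  have hout : (un (bs N D)).real (bs N D1)ᶜ ≤ δ / 10 := by
    have h1 : un (bs N D) (bs N D1)ᶜ ≤ ENNReal.ofReal (δ / 10) := by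
      rw [hD1]
      exact out_le hAVG hm1 hN hD hM2
    have h3 := ENNReal.toReal_mono ENNReal.ofReal_ne_top h1
    rw [ENNReal.toReal_ofReal (by positivity)] at h3
    exact h3
  have hη : Real.sqrt (δ / (2 * (2 * R ^ 2 + c0))) ^ 2 = δ / (2 * (2 * R ^ 2 + c0)) :=
    Real.sq_sqrt (by positivity)
  rw [hη] at hva
  have hη2 : 2 * R ^ 2 * (δ / (2 * (2 * R ^ 2 + c0))) + c0 * (δ / (2 * (2 * R ^ 2 + c0))) =
      δ / 2 := by
    field_simp
  calc ∫ x, (f x - a) ^ 2 ∂(un (bs N D))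
      ≤ ∫ x, (f x - a) ^ 2 ∂(un (bs N D1) + (un (bs N D)).restrict (bs N D1)ᶜ) :=
        integral_mono_measure hle (Eventually.of_forall fun x => sq_nonneg _)
          (hI1.add_measure hI2)
    _ = ∫ x, (f x - a) ^ 2 ∂(un (bs N D1)) + ∫ x in (bs N D1)ᶜ, (f x - a) ^ 2 ∂(un (bs N D)) :=
        integral_add_measure hI1 hI2
    _ ≤ (2 * R ^ 2 * (δ / (2 * (2 * R ^ 2 + c0))) + δ / 10 +
          c0 * (δ / (2 * (2 * R ^ 2 + c0)))) + 4 * (δ / 10) := by
        refine add_le_add hva ?_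
        calc ∫ x in (bs N D1)ᶜ, (f x - a) ^ 2 ∂(un (bs N D))
            ≤ ∫ _ in (bs N D1)ᶜ, (4 : ℝ) ∂(un (bs N D)) := by
              refine integral_mono_of_nonneg (Eventually.of_forall fun x => sq_nonneg _)
                (integrable_const _) (Eventually.of_forall fun x => ?_)
              exact (le_abs_self _).trans (hgb x)
          _ = 4 * (un (bs N D)).real (bs N D1)ᶜ := by
              rw [setIntegral_const, smul_eq_mul, mul_comm]
          _ ≤ _ := mul_le_mul_of_nonneg_left hout (by norm_num)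
    _ = δ := by linarith

end Pool.Agent.U18.UB
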