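import Pool.Agent.U18.UB.Cor3
import Pool.Agent.U312.UB.BT

/-!
# Project UB: the weaker condition on the dimensions

Blocks of dimension at least `(1 + log b) / T` are admitted if the unit ball is contained in the ball of
radius `T √m` (in isotropic position). `t_BT2` is the package BT of helper312 with the condition
`1 + log b ≤ T m`.
-/

set_option autoImplicit false

namespace Pool.Agent.U18.UB

open MeasureTheory Set Filter Topology
open scoped ENNReal InnerProductSpace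

/-- the condition on the dimension of a block -/
def Wide (T : ℝ) (b : ℕ) {m : ℕ} (N : E m → ℝ) : Prop :=
  (1 + Real.log b) ^ 2 ≤ T * m ∨ (1 + Real.log b ≤ T * m ∧ ∀ z, N z ≤ 1 → ‖z‖ ≤ T * Real.sqrt m)

def S_BT2 : Prop := ∀ T ε : ℝ, 0 < T → 0 < ε → ∃ l : ℝ, 1 ≤ l ∧
  ∀ (b : ℕ) (m : Fin b → ℕ) (D : Set (Fin b → ℝ)), UBd D → (∀ i, 2 ≤ m i) →
  (∀ i, 1 + Real.log b ≤ T * m i) → ∀ i, ∃ M : ℝ, 0 < M ∧
  1 / 2 ≤ Pt m D {t | M ≤ t i} ∧ Pt m D {t | l * M < t i} ≤ ENNReal.ofReal (ε / b)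

def S_CORE2 : Prop := ∀ c0 T δ : ℝ, 0 < c0 → 0 < T → 0 < δ → ∃ η C : ℝ, 0 < η ∧ 0 < C ∧
  ∀ (b : ℕ) (m : Fin b → ℕ) (N : ∀ i, E (m i) → ℝ) (D : Set (Fin b → ℝ)), (∀ i, 2 ≤ m i) →
  (∀ i, Blk c0 (N i)) → UBd D → (∀ i, Wide T b (N i)) →
  ∃ τ : Fin b → ℝ, (∀ i, 0 < τ i) ∧
  (∀ i θ, τ i ^ 2 * ‖θ‖ ^ 2 ≤ C * ∫ x, ⟪x i, θ⟫_ℝ ^ 2 ∂(un (bs N D))) ∧
  ∀ f : (∀ i, E (m i)) → ℝ, ContDiff ℝ 1 f → (∀ x, |f x| ≤ 1) →
  (∀ x, ∑ i, τ i ^ 2 * gi f x i ^ 2 ≤ η ^ 2) →
  (∫ x, f x ^ 2 ∂(un (bs N D))) - (∫ x, f x ∂(un (bs N D))) ^ 2 ≤ δ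

theorem Wide.lin {T : ℝ} {b : ℕ} (hb : 1 ≤ b) {m : ℕ} {N : E m → ℝ} (h : Wide T b N) :
    1 + Real.log b ≤ T * m := by
  rcases h with h | h
  · have hb1 : (1 : ℝ) ≤ b := by exact_mod_cast hb
    have hlb : 0 ≤ Real.log b := Real.log_nonneg hb1
    nlinarith
  · exact h.1

/-- package BT (helper312), with the weaker condition -/
theorem t_BT2 : S_BT2 := by
  intro T ε hT hε
  set L : ℝ := max 1 (Real.log (2 / ε)) with hL
  have hL1 : 1 ≤ L := le_max_left _ _
  have hL2 : Real.log (2 / ε) ≤ L := le_max_right _ _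
  have hTL : 0 < 2 * T * L := by positivity
  set lam : ℝ := 4 * Real.exp (2 * T * L) with hlam
  have hlam1 : 4 ≤ lam := by
    have := Real.one_le_exp hTL.le
    linarith
  refine ⟨lam * 2, by linarith, ?_⟩
  intro b m D hD hm hlog i
  obtain ⟨M, hM, h1, h2⟩ := Pool.Agent.U312.UB.median m hD hm i
  refine ⟨M, hM, h1, ?_⟩
  have h3 := Pool.Agent.U312.UB.tail m hD i (lam := lam) (M := 2 * M) (by linarith) h2
  have hb0 : 0 < b := i.pos
  have hb1 : (1:ℝ) ≤ b := by exact_mod_cast hb0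
  have hlb : 0 ≤ Real.log b := Real.log_nonneg hb1
  have e : lam * (2 * M) = lam * 2 * M := by ring
  rw [e] at h3
  refine h3.trans ?_
  have h4 : (2 : ℝ≥0∞) = ENNReal.ofReal 2 := by norm_num
  rw [h4, ← ENNReal.ofReal_mul (by norm_num)]
  apply ENNReal.ofReal_le_ofReal
  have h5 : 4 / lam = Real.exp (-(2 * T * L)) := by
    rw [hlam, Real.exp_neg]
    field_simp
  rw [h5, ← Real.exp_nat_mul]
  have h6 : (2 * ((m i - 1 : ℕ) : ℝ)) ≥ m i := by
    have := hm i
    have h7 : m i ≤ 2 * (m i - 1) := by omega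
    exact_mod_cast h7
  have h8 : L + Real.log b ≤ 2 * T * L * ((m i - 1 : ℕ) : ℝ) := by
    have h9 := hlog i
    have h10 : T * L * (m i : ℝ) ≤ 2 * T * L * ((m i - 1 : ℕ) : ℝ) := by
      have : 0 < T * L := by positivity
      nlinarith
    have h11 : L * (1 + Real.log b) ≤ T * L * (m i : ℝ) := by
      have : 1 + Real.log b ≤ T * m i := hlog i
      nlinarith
    nlinarith
  have h12 : Real.exp (((m i - 1 : ℕ) : ℝ) * -(2 * T * L)) ≤ ε / 2 / b := by
    have h13 : Real.exp (((m i - 1 : ℕ) : ℝ) * -(2 * T * L)) ≤ Real.exp (-(L + Real.log b)) := by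
      apply Real.exp_le_exp.2
      linarith
    refine h13.trans ?_
    rw [neg_add, Real.exp_add, Real.exp_neg (Real.log b), Real.exp_log (by linarith),
      div_eq_mul_inv (ε / 2)]
    apply mul_le_mul_of_nonneg_right _ (by positivity)
    have h14 : Real.exp (-L) ≤ Real.exp (-(Real.log (2 / ε))) := by
      apply Real.exp_le_exp.2
      linarith
    refine h14.trans (le_of_eq ?_)
    rw [Real.exp_neg, Real.exp_log (by positivity)]
    field_simp
  calc 2 * Real.exp (((m i - 1 : ℕ) : ℝ) * -(2 * T * L)) ≤ 2 * (ε / 2 / b) := by gcongr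
    _ = ε / b := by ring



variable {b : ℕ} {m : Fin b → ℕ} {N : ∀ i, E (m i) → ℝ} {D : Set (Fin b → ℝ)}

theorem core2 (hTL : S_TL) (hBT : S_BT2) (hAVG : S_AVG) (hES : S_ES) (hBL : S_BL) (hGB : S_GB)
    (hCV : S_CV) : S_CORE2 := by
  intro c0 T δ hc0 hT hδ
  obtain ⟨R, hR1, hTLR⟩ := hTL c0 T (δ / 10) hc0 hT (by positivity)
  obtain ⟨l, hl, hBTl⟩ := hBT T (δ / 10) hT (by positivity)
  obtain ⟨R0, hR0⟩ : ∃ R0 : ℝ, R0 = R := ⟨_, rfl⟩
  rw [← hR0] at hTLR hR1
  clear hR0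
  obtain ⟨R, hR⟩ : ∃ R : ℝ, R = max R0 T := ⟨_, rfl⟩
  have hRR0 : R0 ≤ R := by rw [hR]; exact le_max_left _ _
  have hRT : T ≤ R := by rw [hR]; exact le_max_right _ _
  refine ⟨Real.sqrt (δ / (2 * (2 * R ^ 2 + c0))), 2 * l ^ 2, by positivity, by positivity, ?_⟩
  intro b m N D hm hB hD hb
  choose M hM0 hM1 hM2 using hBTl b m D hD hm fun i => (hb i).lin (by have := i.2; omega)
  have hN : ∀ i, Nrm (N i) := fun i => (hB i).nrm
  have hm1 : ∀ i, 1 ≤ m i := fun i => by have := hm i; omega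
  have hτ : ∀ i, 0 < l * M i := fun i => mul_pos (by linarith) (hM0 i)
  refine ⟨fun i => l * M i, hτ, fun i θ => ?_, fun f hf hfb hg => ?_⟩
  · have h1 := (hCV c0 b m N D hc0 hm1 hB hD).2.2 i (M i) (hM0 i) (hM1 i) θ
    calc (l * M i) ^ 2 * ‖θ‖ ^ 2 = 2 * l ^ 2 * (M i ^ 2 / 2 * ‖θ‖ ^ 2) := by ring
      _ ≤ _ := mul_le_mul_of_nonneg_left h1 (by positivity)
  obtain ⟨D1, hD1⟩ : ∃ D1 : Set (Fin b → ℝ), D1 = D ∩ {t | ∀ i, |t i| ≤ l * M i} := ⟨_, rfl⟩
  have hD1b : UBd D1 := by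
    rw [hD1]
    exact ubd_trunc hD hτ
  have htl : ∀ i, un (ball (N i)) {z | R * Real.sqrt (m i) * N i z < ‖z‖} ≤
      ENNReal.ofReal (δ / 10 / b) := by
    intro i
    have hb1 : 1 ≤ b := by have := i.2; omega
    rcases hb i with h | ⟨-, h⟩
    · refine (measure_mono fun z hz => ?_).trans (hTLR (m i) (N i) (hm1 i) (hB i) b hb1 h)
      have hz' : R * Real.sqrt (m i) * N i z < ‖z‖ := hz
      have h0 : 0 ≤ Real.sqrt (m i) * N i z := mul_nonneg (Real.sqrt_nonneg _) ((hN i).nonneg z)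
      change R0 * Real.sqrt (m i) * N i z < ‖z‖
      nlinarith
    · have he : {z : E (m i) | R * Real.sqrt (m i) * N i z < ‖z‖} = ∅ := by
        rw [eq_empty_iff_forall_notMem]
        intro z hz
        have hz' : R * Real.sqrt (m i) * N i z < ‖z‖ := hz
        have h00 := (hN i).nonneg z
        have hsm : 0 ≤ Real.sqrt (m i) := Real.sqrt_nonneg _
        rcases h00.eq_or_lt with h1 | h1
        · have h2 : z = 0 := by
            by_contra h3
            exact ((hN i).pos z h3).ne h1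
          rw [h2, norm_zero, (hN i).zero, mul_zero] at hz'
          exact lt_irrefl _ hz'
        · have h2 := h ((N i z)⁻¹ • z) (by
            rw [(hN i).smul, abs_inv, abs_of_pos h1, inv_mul_cancel₀ h1.ne'])
          rw [norm_smul, norm_inv, Real.norm_eq_abs, abs_of_pos h1, inv_mul_le_iff₀ h1] at h2
          have h3 : T * Real.sqrt (m i) ≤ R * Real.sqrt (m i) :=
            mul_le_mul_of_nonneg_right hRT hsm
          nlinarith
      rw [he, measure_empty]
      exact zero_le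
  obtain ⟨a, ha, hva⟩ := var_small hAVG hES hBL hGB hc0 (by linarith) (by positivity) hm hB hD1b
    hτ (fun t ht i => by rw [hD1] at ht; exact ht.2 i) htl hf hfb hg
  obtain ⟨-, -, hμ, -, -⟩ := hAVG b m N hm1 hN D hD
  obtain ⟨-, -, hμ1, -, -⟩ := hAVG b m N hm1 hN D1 hD1b
  have hfm : Measurable f := hf.continuous.measurable
  rw [var_eq _ hfm hfb]
  refine (var_le _ hfm hfb a).trans ?_
  have hsub : bs N D1 ⊆ bs N D := by
    intro x hx
    rw [hD1] at hx
    exact hx.1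
  have hc : Continuous fun x : ∀ i, E (m i) => fun i => N i (x i) :=
    continuous_pi fun i => (hN i).cont.comp (continuous_apply i)
  have hms : MeasurableSet (bs N D1) := (hD1b.comp.isClosed.preimage hc).measurableSet
  have hle : un (bs N D) ≤ un (bs N D1) + (un (bs N D)).restrict (bs N D1)ᶜ := by
    have h1 : (un (bs N D)).restrict (bs N D1) ≤ un (bs N D1) := by
      unfold un
      rw [Measure.restrict_smul, Measure.restrict_restrict hms,
        inter_eq_self_of_subset_left hsub]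
      have h2 : (volume (bs N D))⁻¹ ≤ (volume (bs N D1))⁻¹ :=
        ENNReal.inv_le_inv.2 (measure_mono hsub)
      intro s
      rw [Measure.smul_apply, Measure.smul_apply]
      exact mul_le_mul_left h2 _
    calc un (bs N D) = (un (bs N D)).restrict (bs N D1) + (un (bs N D)).restrict (bs N D1)ᶜ :=
          (Measure.restrict_add_restrict_compl hms).symm
      _ ≤ _ := add_le_add h1 le_rfl
  have hgm : Measurable fun x => (f x - a) ^ 2 := (hfm.sub_const a).pow_const 2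
  have hgb : ∀ x, |(f x - a) ^ 2| ≤ 4 := by
    intro x
    rw [abs_pow]
    have h1 : |f x - a| ≤ 2 := (abs_sub _ _).trans (by linarith [hfb x])
    have h2 := pow_le_pow_left₀ (abs_nonneg _) h1 2
    norm_num at h2 ⊢
    exact h2
  have hI0 : Integrable (fun x => (f x - a) ^ 2) (un (bs N D)) := ib _ hgm hgb
  have hI1 : Integrable (fun x => (f x - a) ^ 2) (un (bs N D1)) := ib _ hgm hgb
  have hI2 : Integrable (fun x => (f x - a) ^ 2) ((un (bs N D)).restrict (bs N D1)ᶜ) :=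
    hI0.restrict
  have hout : (un (bs N D)).real (bs N D1)ᶜ ≤ δ / 10 := by
    have h1 : un (bs N D) (bs N D1)ᶜ ≤ ENNReal.ofReal (δ / 10) := by
      rw [hD1]
      exact out_le hAVG hm1 hN hD hM2
    have h3 := ENNReal.toReal_mono ENNReal.ofReal_ne_top h1
    rw [ENNReal.toReal_ofReal (by positivity)] at h3
    exact h3
  have hη : Real.sqrt (δ / (2 * (2 * R ^ 2 + c0))) ^ 2 = δ / (2 * (2 * R ^ 2 + c0)) :=
    Real.sq_sqrt (by positivity)
  rw [hη] at hva
  have hη2 : 2 * R ^ 2 * (δ / (2 * (2 * R ^ 2 + c0))) + c0 * (δ / (2 * (2 * R ^ 2 + c0))) =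
      δ / 2 := by
    field_simp
  calc ∫ x, (f x - a) ^ 2 ∂(un (bs N D))
      ≤ ∫ x, (f x - a) ^ 2 ∂(un (bs N D1) + (un (bs N D)).restrict (bs N D1)ᶜ) :=
        integral_mono_measure hle (Eventually.of_forall fun x => sq_nonneg _)
          (hI1.add_measure hI2)
    _ = ∫ x, (f x - a) ^ 2 ∂(un (bs N D1)) + ∫ x in (bs N D1)ᶜ, (f x - a) ^ 2 ∂(un (bs N D)) :=
        integral_add_measure hI1 hI2
    _ ≤ (2 * R ^ 2 * (δ / (2 * (2 * R ^ 2 + c0))) + δ / 10 +
          c0 * (δ / (2 * (2 * R ^ 2 + c0)))) + 4 * (δ / 10) := by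
        refine add_le_add hva ?_
        calc ∫ x in (bs N D1)ᶜ, (f x - a) ^ 2 ∂(un (bs N D))
            ≤ ∫ _ in (bs N D1)ᶜ, (4 : ℝ) ∂(un (bs N D)) := by
              refine integral_mono_of_nonneg (Eventually.of_forall fun x => sq_nonneg _)
                (integrable_const _) (Eventually.of_forall fun x => ?_)
              exact (le_abs_self _).trans (hgb x)
          _ = 4 * (un (bs N D)).real (bs N D1)ᶜ := by
              rw [setIntegral_const, smul_eq_mul, mul_comm]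
          _ ≤ _ := mul_le_mul_of_nonneg_left hout (by norm_num)
    _ = δ := by linarith

end Pool.Agent.U18.UB
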