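import Pool.Agent.U18.UB.Nm

/-!
# Project UB: linear images of the bodies
-/

set_option autoImplicit false

namespace Pool.Agent.U18.UB

open MeasureTheory Set Filter Topology
open scoped ENNReal InnerProductSpace

/-- images of uniform measures under linear bijections -/
theorem un_map {V W : Type} [NormedAddCommGroup V] [NormedSpace ℝ V] [FiniteDimensional ℝ V]
    [MeasureSpace V] [BorelSpace V] [(volume : Measure V).IsAddHaarMeasure]
    [NormedAddCommGroup W] [NormedSpace ℝ W] [FiniteDimensional ℝ W]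
    [MeasureSpace W] [BorelSpace W] [(volume : Measure W).IsAddHaarMeasure]
    (e : V ≃ₗ[ℝ] W) {K : Set V} (h0 : volume K ≠ 0) : un (e '' K) = Measure.map e (un K) := by
  obtain ⟨e', he'⟩ : ∃ e' : V ≃L[ℝ] W, ∀ x, e' x = e x := ⟨e.toContinuousLinearEquiv, fun x => rfl⟩
  have hfe : (e : V → W) = e' := funext fun x => (he' x).symm
  have hme : MeasurableEmbedding e' := e'.toHomeomorph.measurableEmbedding
  have hh : (Measure.map e' (volume : Measure V)).IsAddHaarMeasure := e'.isAddHaarMeasure_map volume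
  obtain ⟨c, hc⟩ : ∃ c : NNReal, Measure.map e' (volume : Measure V) =
      c • (volume : Measure W) := ⟨_, Measure.isAddLeftInvariant_eq_smul _ _⟩
  rw [hfe]
  have hKe : e' ⁻¹' (e' '' K) = K := preimage_image_eq K e'.injective
  have hv : volume K = c * volume (e' '' K) := by
    have h2 : (Measure.map e' (volume : Measure V)) (e' '' K) = volume K := by
      rw [hme.map_apply, hKe]
    rw [← h2, hc]
    rfl
  have hc0 : (c : ℝ≥0∞) ≠ 0 := by
    intro h
    rw [h, zero_mul] at hv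
    exact h0 hv
  have hr : Measure.map e' (volume.restrict K) = c • (volume.restrict (e' '' K)) := by
    rw [← hKe, ← hme.restrict_map, hc, Measure.restrict_smul, hKe]
  unfold un
  rw [Measure.map_smul, hr, hv]
  have h3 : (c • (volume.restrict (e' '' K)) : Measure W) =
      (c : ℝ≥0∞) • volume.restrict (e' '' K) := rfl
  rw [h3, smul_smul, ENNReal.mul_inv (Or.inl hc0) (Or.inl ENNReal.coe_ne_top)]
  congr 1
  rw [mul_comm (c : ℝ≥0∞)⁻¹, mul_assoc, ENNReal.inv_mul_cancel hc0 ENNReal.coe_ne_top, mul_one]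

theorem un_int_map {V W : Type} [NormedAddCommGroup V] [NormedSpace ℝ V] [FiniteDimensional ℝ V]
    [MeasureSpace V] [BorelSpace V] [(volume : Measure V).IsAddHaarMeasure]
    [NormedAddCommGroup W] [NormedSpace ℝ W] [FiniteDimensional ℝ W]
    [MeasureSpace W] [BorelSpace W] [(volume : Measure W).IsAddHaarMeasure]
    (e : V ≃ₗ[ℝ] W) {K : Set V} (h0 : volume K ≠ 0) (f : W → ℝ) :
    ∫ y, f y ∂(un (e '' K)) = ∫ x, f (e x) ∂(un K) := by
  rw [un_map e h0]
  have hme : MeasurableEmbedding e.toContinuousLinearEquiv :=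
    e.toContinuousLinearEquiv.toHomeomorph.measurableEmbedding
  exact hme.integral_map (μ := un K) f

variable {b : ℕ} {m : Fin b → ℕ} {N : ∀ i, E (m i) → ℝ} {D : Set (Fin b → ℝ)}

theorem bs_cont (hN : ∀ i, Nrm (N i)) : Continuous fun x : ∀ i, E (m i) => fun i => N i (x i) :=
  continuous_pi fun i => (hN i).cont.comp (continuous_apply i)

theorem bs_compact (hN : ∀ i, Nrm (N i)) (hD : UBd D) : IsCompact (bs N D) := by
  obtain ⟨B, hB⟩ := hD.comp.isBounded.exists_norm_le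
  choose c hc hl using fun i => (hN i).lower
  have hcl : IsClosed (bs N D) := hD.comp.isClosed.preimage (bs_cont hN)
  refine (isCompact_univ_pi fun i => isCompact_closedBall (0 : E (m i)) (|B| / c i)).of_isClosed_subset
    hcl fun x hx i _ => ?_
  have h1 : ‖fun i => N i (x i)‖ ≤ B := hB _ hx
  have h2 : |N i (x i)| ≤ B := (norm_le_pi_norm (fun i => N i (x i)) i).trans h1
  rw [Metric.mem_closedBall, dist_zero_right, le_div_iff₀ (hc i)]
  calc ‖x i‖ * c i = c i * ‖x i‖ := mul_comm _ _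
    _ ≤ N i (x i) := hl i (x i)
    _ ≤ |B| := (le_abs_self _).trans (h2.trans (le_abs_self B))

theorem bs_int (hN : ∀ i, Nrm (N i)) (hD : UBd D) : (interior (bs N D)).Nonempty := by
  obtain ⟨r, hr, hb⟩ := ubd_ball hD
  refine ⟨0, mem_interior_iff_mem_nhds.2 ?_⟩
  have h1 : (fun i => N i ((0 : ∀ i, E (m i)) i)) = (0 : Fin b → ℝ) := by
    funext i
    simp [(hN i).zero]
  have h2 : D ∈ 𝓝 (fun i => N i ((0 : ∀ i, E (m i)) i)) := by
    rw [h1]
    exact Filter.mem_of_superset (Metric.ball_mem_nhds 0 hr) hb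
  exact (bs_cont hN).continuousAt.preimage_mem_nhds h2

theorem bs_vol_ne (hN : ∀ i, Nrm (N i)) (hD : UBd D) : volume (bs N D) ≠ 0 :=
  (lt_of_lt_of_le (isOpen_interior.measure_pos volume (bs_int hN hD))
    (measure_mono interior_subset)).ne'

theorem bs_vol_fin (hN : ∀ i, Nrm (N i)) (hD : UBd D) : volume (bs N D) ≠ ⊤ :=
  (bs_compact hN hD).measure_lt_top.ne

theorem bs_prob (hN : ∀ i, Nrm (N i)) (hD : UBd D) : IsProbabilityMeasure (un (bs N D)) := by
  refine ⟨?_⟩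
  unfold un
  rw [Measure.smul_apply, Measure.restrict_apply_univ, smul_eq_mul,
    ENNReal.inv_mul_cancel (bs_vol_ne hN hD) (bs_vol_fin hN hD)]

theorem bs_integrable (hN : ∀ i, Nrm (N i)) (hD : UBd D) {F : (∀ i, E (m i)) → ℝ}
    (hF : Continuous F) : Integrable F (un (bs N D)) := by
  unfold un
  exact (hF.continuousOn.integrableOn_compact (bs_compact hN hD)).smul_measure
    (ENNReal.inv_ne_top.2 (bs_vol_ne hN hD))

/-- the gradients of functions of a linear map -/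
theorem grad_bound {k : ℕ} {μ : Measure (∀ i, E (m i))} {τ : Fin b → ℝ} {C s : ℝ} (hC : 0 ≤ C)
    (hcross : ∀ i j θ θ', i ≠ j → ∫ x, ⟪x i, θ⟫_ℝ * ⟪x j, θ'⟫_ℝ ∂μ = 0)
    (hint : ∀ i j (θ : E (m i)) (θ' : E (m j)),
      Integrable (fun x : ∀ i, E (m i) => ⟪x i, θ⟫_ℝ * ⟪x j, θ'⟫_ℝ) μ)
    (hlow : ∀ i θ, τ i ^ 2 * ‖θ‖ ^ 2 ≤ C * ∫ x, ⟪x i, θ⟫_ℝ ^ 2 ∂μ)
    (L : (∀ i, E (m i)) →L[ℝ] E k) (hs : ∀ θ : E k, ∫ x, ⟪L x, θ⟫_ℝ ^ 2 ∂μ ≤ s * ‖θ‖ ^ 2)
    (φ : E k →L[ℝ] ℝ) :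
    ∑ i, τ i ^ 2 * ‖(φ.comp L).comp (ContinuousLinearMap.single ℝ (fun i => E (m i)) i)‖ ^ 2 ≤
      C * s * ‖φ‖ ^ 2 := by
  obtain ⟨w, hw⟩ : ∃ w : E k, w = (InnerProductSpace.toDual ℝ (E k)).symm φ := ⟨_, rfl⟩
  have hφ : ∀ y, φ y = ⟪w, y⟫_ℝ := fun y => by
    rw [hw, InnerProductSpace.toDual_symm_apply]
  have hwn : ‖w‖ = ‖φ‖ := by rw [hw, LinearIsometryEquiv.norm_map]
  obtain ⟨B, hB⟩ : ∃ B : ∀ i, E (m i) →L[ℝ] E k, ∀ i, B i = L.comp
    (ContinuousLinearMap.single ℝ (fun i => E (m i)) i) := ⟨_, fun i => rfl⟩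
  obtain ⟨β, hβ⟩ : ∃ β : ∀ i, E (m i), ∀ i, β i = ContinuousLinearMap.adjoint (B i) w :=
    ⟨_, fun i => rfl⟩
  have hn : ∀ i, ‖(φ.comp L).comp (ContinuousLinearMap.single ℝ (fun i => E (m i)) i)‖ = ‖β i‖ := by
    intro i
    have h1 : (φ.comp L).comp (ContinuousLinearMap.single ℝ (fun i => E (m i)) i) =
        InnerProductSpace.toDual ℝ (E (m i)) (β i) := by
      ext y
      rw [InnerProductSpace.toDual_apply_apply, hβ, ContinuousLinearMap.adjoint_inner_left, hB]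
      exact hφ _
    rw [h1, LinearIsometryEquiv.norm_map]
  have hL : ∀ x, ⟪L x, w⟫_ℝ = ∑ i, ⟪x i, β i⟫_ℝ := by
    intro x
    have h1 : x = ∑ i, ContinuousLinearMap.single ℝ (fun i => E (m i)) i (x i) := by
      funext j
      rw [Finset.sum_apply]
      simp [ContinuousLinearMap.single_apply, Pi.single_apply]
    have h2 : L x = ∑ i, B i (x i) := by
      conv_lhs => rw [h1]
      rw [map_sum]
      refine Finset.sum_congr rfl fun i _ => ?_
      rw [hB]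
      rfl
    rw [h2, sum_inner]
    refine Finset.sum_congr rfl fun i _ => ?_
    rw [hβ, ContinuousLinearMap.adjoint_inner_right]
  have hsum : ∫ x, ⟪L x, w⟫_ℝ ^ 2 ∂μ = ∑ i, ∫ x, ⟪x i, β i⟫_ℝ ^ 2 ∂μ := by
    have e1 : ∀ x : ∀ i, E (m i), ⟪L x, w⟫_ℝ ^ 2 = ∑ i, ∑ j, ⟪x i, β i⟫_ℝ * ⟪x j, β j⟫_ℝ := by
      intro x
      rw [hL, sq, Finset.sum_mul_sum]
    simp only [e1]
    rw [integral_finsetSum _ fun i _ => integrable_finsetSum _ fun j _ => hint i j _ _]
    refine Finset.sum_congr rfl fun i _ => ?_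
    rw [integral_finsetSum _ fun j _ => hint i j _ _, Finset.sum_eq_single i]
    · simp only [sq]
    · intro j _ hj
      exact hcross i j _ _ (Ne.symm hj)
    · intro h
      exact absurd (Finset.mem_univ i) h
  calc _ = ∑ i, τ i ^ 2 * ‖β i‖ ^ 2 := Finset.sum_congr rfl fun i _ => by rw [hn]
    _ ≤ ∑ i, C * ∫ x, ⟪x i, β i⟫_ℝ ^ 2 ∂μ := Finset.sum_le_sum fun i _ => hlow i _
    _ = C * ∫ x, ⟪L x, w⟫_ℝ ^ 2 ∂μ := by rw [hsum, Finset.mul_sum]
    _ ≤ C * (s * ‖w‖ ^ 2) := mul_le_mul_of_nonneg_left (hs w) hC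
    _ = _ := by rw [hwn]; ring

end Pool.Agent.U18.UB
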