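import Pool.Agent.U18.UB.Stm2
import Pool.Agent.U18.UB.Fin1
import Pool.Agent.U18.UB.Cor4
import Pool.Agent.R754.KG.C

/-!
# Project UB: the concentration property of all linear images
-/

set_option autoImplicit false

namespace Pool.Agent.U18.UB

open MeasureTheory Set Filter Topology
open scoped ENNReal InnerProductSpace

/-- integrals over symmetric sets -/
theorem un_int_neg {V : Type} [NormedAddCommGroup V] [NormedSpace ℝ V] [FiniteDimensional ℝ V]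
    [MeasureSpace V] [BorelSpace V] [(volume : Measure V).IsAddHaarMeasure] {K : Set V}
    (h0 : volume K ≠ 0) (hs : ∀ x ∈ K, -x ∈ K) (f : V → ℝ) :
    ∫ x, f (-x) ∂(un K) = ∫ x, f x ∂(un K) := by
  have h1 := un_int_map (LinearEquiv.neg ℝ : V ≃ₗ[ℝ] V) h0 f
  have h2 : (LinearEquiv.neg ℝ : V ≃ₗ[ℝ] V) '' K = K := by
    ext x
    constructor
    · rintro ⟨y, hy, rfl⟩
      exact hs y hy
    · intro hx
      exact ⟨-x, hs x hx, by simp⟩
  rw [h2] at h1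
  rw [h1]
  rfl

theorem un_odd {V : Type} [NormedAddCommGroup V] [NormedSpace ℝ V] [FiniteDimensional ℝ V]
    [MeasureSpace V] [BorelSpace V] [(volume : Measure V).IsAddHaarMeasure] {K : Set V}
    (h0 : volume K ≠ 0) (hs : ∀ x ∈ K, -x ∈ K) {f : V → ℝ} (hf : ∀ x, f (-x) = -f x) :
    ∫ x, f x ∂(un K) = 0 := by
  have h1 := un_int_neg h0 hs f
  simp only [hf] at h1
  rw [integral_neg] at h1
  linarith

theorem nrm_comp {m : ℕ} {N : E m → ℝ} (h : Nrm N) (A : E m ≃ₗ[ℝ] E m) :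
    Nrm fun x => N (A.symm x) := by
  refine ⟨fun x y => ?_, fun r x => ?_, fun x hx => ?_⟩
  · rw [map_add]
    exact h.add_le _ _
  · rw [map_smul, h.smul]
  · exact h.pos _ (by simpa using hx)

theorem ball_comp {m : ℕ} (N : E m → ℝ) (A : E m ≃ₗ[ℝ] E m) :
    ball (fun x => N (A.symm x)) = A '' ball N := by
  ext x
  constructor
  · intro hx
    exact ⟨A.symm x, hx, A.apply_symm_apply x⟩
  · rintro ⟨y, hy, rfl⟩
    change N (A.symm (A y)) ≤ 1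
    rw [A.symm_apply_apply]
    exact hy

/-- the blocks: Poincare inequality in isotropic position and the condition on the dimension -/
def BlkP (c0 T : ℝ) (b : ℕ) {m : ℕ} (N : E m → ℝ) : Prop :=
  ∃ A : E m ≃ₗ[ℝ] E m,
    (∀ θ : E m, (∫ x, ⟪A x, θ⟫_ℝ ^ 2 ∂(un (ball N))) -
      (∫ x, ⟪A x, θ⟫_ℝ ∂(un (ball N))) ^ 2 = ‖θ‖ ^ 2) ∧
    (∀ f : E m → ℝ, ContDiff ℝ 1 f →
      (∫ x, f (A x) ^ 2 ∂(un (ball N))) - (∫ x, f (A x) ∂(un (ball N))) ^ 2 ≤
        c0 * ∫ x, ‖fderiv ℝ f (A x)‖ ^ 2 ∂(un (ball N))) ∧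
    ((1 + Real.log b) ^ 2 ≤ T * m ∨
      (1 + Real.log b ≤ T * m ∧ ∀ x, N x ≤ 1 → ‖A x‖ ≤ T * Real.sqrt m))

/-- UB-CCU. The concentration property of all linear images -/
def S_CCU2 : Prop := ∀ c0 T δ : ℝ, 0 < c0 → 0 < T → 0 < δ → ∃ κ : ℝ, 0 < κ ∧
  ∀ (b n : ℕ) (m : Fin b → ℕ) (e : (∀ i, E (m i)) ≃ₗ[ℝ] E n) (N : ∀ i, E (m i) → ℝ)
  (D : Set (Fin b → ℝ)), (∀ i, 1 ≤ m i) → (∀ i, Nrm (N i)) → (∀ i, BlkP c0 T b (N i)) → UBd D →
  Pool.Agent.R751.MB.CcW κ δ (Pool.Agent.R751.MB.ind (e '' bs N D))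

theorem BlkP.pi {c0 T : ℝ} {b m : ℕ} {N : E m → ℝ} (hN : Nrm N) (h : BlkP c0 T b N) :
    Pool.Agent.R755.KF.PI c0 (ball N) := by
  obtain ⟨A, h1, h2, -⟩ := h
  have hcv : Convex ℝ (ball N) := by
    have h3 := hN.conv.convex_le 1
    simpa [ball] using h3
  exact ⟨hN.compact, hcv, hN.int, A, h1, h2⟩

theorem blk_of_pi {c0 T : ℝ} {b m : ℕ} {N : E m → ℝ} (hN : Nrm N) (h : BlkP c0 T b N) :
    ∃ A : E m ≃ₗ[ℝ] E m, Blk c0 (fun x => N (A.symm x)) ∧ Wide T b (fun x => N (A.symm x)) := by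
  obtain ⟨A, h1', h2', h3'⟩ := h
  have hv := hN.vol_ne
  have hs : ∀ x ∈ ball N, -x ∈ ball N := fun x hx => by
    have : N x ≤ 1 := hx
    change N (-x) ≤ 1
    rwa [hN.neg]
  refine ⟨A, ⟨nrm_comp hN A, fun θ => ?_, fun f hf => ?_⟩, ?_⟩
  · rw [ball_comp, un_int_map A hv]
    have h3 : ∫ x, ⟪A x, θ⟫_ℝ ∂(un (ball N)) = 0 := un_odd hv hs fun x => by
      rw [map_neg, inner_neg_left]
    have h4 := h1' θ
    rw [h3] at h4
    simpa using h4
  · rw [ball_comp, un_int_map A hv, un_int_map A hv, un_int_map A hv]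
    exact h2' f hf
  · rcases h3' with h | ⟨h, h'⟩
    · exact Or.inl h
    · refine Or.inr ⟨h, fun z hz => ?_⟩
      have := h' (A.symm z) hz
      rwa [A.apply_symm_apply] at this

variable {b : ℕ} {m : Fin b → ℕ} {N : ∀ i, E (m i) → ℝ} {D : Set (Fin b → ℝ)}

theorem bs_symm (hN : ∀ i, Nrm (N i)) : ∀ x ∈ bs N D, -x ∈ bs N D := by
  intro x hx
  have h1 : (fun i => N i ((-x) i)) = fun i => N i (x i) := by
    funext i
    rw [Pi.neg_apply, (hN i).neg]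
  change (fun i => N i ((-x) i)) ∈ D
  rw [h1]
  exact hx

theorem ccw_blk (hCORE : S_CORE2) (hCV : S_CV) (c0 T δ : ℝ) (hc0 : 0 < c0) (hT : 0 < T)
    (hδ : 0 < δ) : ∃ κ : ℝ, 0 < κ ∧
    ∀ (b n : ℕ) (m : Fin b → ℕ) (e : (∀ i, E (m i)) ≃ₗ[ℝ] E n) (N : ∀ i, E (m i) → ℝ)
    (D : Set (Fin b → ℝ)), (∀ i, 2 ≤ m i) → (∀ i, Blk c0 (N i)) → UBd D →
    (∀ i, Wide T b (N i)) →
    Pool.Agent.R751.MB.CcW κ δ (Pool.Agent.R751.MB.ind (e '' bs N D)) := by
  obtain ⟨η, C, hη, hC, hco⟩ := hCORE c0 T δ hc0 hT hδ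
  refine ⟨η / Real.sqrt C, by positivity, ?_⟩
  intro b n m e N D hm hB hD hb k hk Tm s hs hvar v hv hvb hvd
  have hN : ∀ i, Nrm (N i) := fun i => (hB i).nrm
  have hm1 : ∀ i, 1 ≤ m i := fun i => by have := hm i; omega
  obtain ⟨τ, hτ, hlow, hmain⟩ := hco b m N D hm hB hD hb
  have hv0 := bs_vol_ne (m := m) hN hD
  have hcomp : IsCompact (e '' bs N D) :=
    (bs_compact hN hD).image e.toLinearMap.continuous_of_finiteDimensional
  have hμ : IsProbabilityMeasure (un (bs N D)) := bs_prob hN hD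
  -- in terms of integrals over `bs N D`
  have hVW : ∀ g : E n → ℝ, Pool.Agent.R751.MB.VW (Pool.Agent.R751.MB.ind (e '' bs N D)) g =
      (∫ x, g (e x) ^ 2 ∂(un (bs N D))) - (∫ x, g (e x) ∂(un (bs N D))) ^ 2 := by
    intro g
    have h1 : Pool.Agent.R751.MB.VW (Pool.Agent.R751.MB.ind (e '' bs N D)) g =
        (∫ x, g x ^ 2 ∂(un (e '' bs N D))) - (∫ x, g x ∂(un (e '' bs N D))) ^ 2 :=
      Pool.Agent.R754.KG.VW_ind hcomp.measurableSet g
    rw [h1, un_int_map e hv0, un_int_map e hv0]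
  obtain ⟨L, hL⟩ : ∃ L : (∀ i, E (m i)) →L[ℝ] E k, ∀ x, L x = Tm (e x) :=
    ⟨LinearMap.toContinuousLinearMap (Tm ∘ₗ e.toLinearMap), fun x => rfl⟩
  rw [hVW]
  simp only [← hL]
  have hodd : ∀ θ : E k, ∫ x, ⟪L x, θ⟫_ℝ ∂(un (bs N D)) = 0 := fun θ =>
    un_odd hv0 (bs_symm hN) fun x => by rw [map_neg, inner_neg_left]
  have hsθ : ∀ θ : E k, ∫ x, ⟪L x, θ⟫_ℝ ^ 2 ∂(un (bs N D)) ≤ s * ‖θ‖ ^ 2 := by
    intro θ
    rcases eq_or_ne θ 0 with rfl | hθ
    · simp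
    have hθ' : ‖θ‖ ≠ 0 := norm_ne_zero_iff.2 hθ
    have h1 := hvar (‖θ‖⁻¹ • θ) (by rw [norm_smul, norm_inv, norm_norm, inv_mul_cancel₀ hθ'])
    rw [hVW] at h1
    simp only [← hL] at h1
    rw [hodd] at h1
    simp only [inner_smul_right, mul_pow] at h1
    rw [integral_const_mul] at h1
    have h3 : 0 < ‖θ‖ ^ 2 := by positivity
    have h4 : (‖θ‖⁻¹) ^ 2 * ∫ x, ⟪L x, θ⟫_ℝ ^ 2 ∂(un (bs N D)) ≤ s := by simpa using h1
    rw [inv_pow, inv_mul_le_iff₀ h3] at h4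
    linarith
  obtain ⟨-, hcr, -⟩ := hCV c0 b m N D hc0 hm1 hB hD
  have hgr := grad_bound (m := m) hC.le hcr (fun i j θ θ' => bs_integrable hN hD (by fun_prop))
    hlow L hsθ
  refine hmain (fun x => v (L x)) (hv.comp L.contDiff) (fun x => hvb _) fun x => ?_
  have hfd : fderiv ℝ (fun x => v (L x)) x = (fderiv ℝ v (L x)).comp L := by
    have h1 : HasFDerivAt v (fderiv ℝ v (L x)) (L x) :=
      ((hv.differentiable one_ne_zero) (L x)).hasFDerivAt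
    exact (h1.comp x L.hasFDerivAt).fderiv
  have h2 := hgr (fderiv ℝ v (L x))
  have h3 : ∀ i, gi (fun x => v (L x)) x i = ‖((fderiv ℝ v (L x)).comp L).comp
      (ContinuousLinearMap.single ℝ (fun i => E (m i)) i)‖ := fun i => by
    unfold gi
    rw [hfd]
  simp only [h3]
  refine h2.trans ?_
  have h4 := pow_le_pow_left₀ (norm_nonneg _) (hvd (L x)) 2
  rw [div_pow, div_pow, Real.sq_sqrt hC.le, Real.sq_sqrt hs.le] at h4
  calc C * s * ‖fderiv ℝ v (L x)‖ ^ 2 ≤ C * s * (η ^ 2 / C / s) :=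
        mul_le_mul_of_nonneg_left h4 (by positivity)
    _ = η ^ 2 := by field_simp

theorem ccw_anti {n : ℕ} {κ κ' δ : ℝ} (h : κ' ≤ κ) {w : E n → ℝ}
    (hc : Pool.Agent.R751.MB.CcW κ δ w) : Pool.Agent.R751.MB.CcW κ' δ w := by
  intro k hk T s hs hv v h1 h2 h3
  exact hc k hk T s hs hv v h1 h2 fun y => (h3 y).trans
    (div_le_div_of_nonneg_right h (Real.sqrt_nonneg s))

theorem ccu (hCORE : S_CORE2) (hCV : S_CV) (hFSB : S_FSB) : S_CCU2 := by
  intro c0 T δ hc0 hT hδ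
  obtain ⟨κ1, hκ1, H1⟩ := ccw_blk hCORE hCV c0 T δ hc0 hT hδ
  obtain ⟨κ2, hκ2, H2⟩ := hFSB ⌈Real.exp T⌉₊ c0 δ hc0 hδ
  refine ⟨min κ1 κ2, lt_min hκ1 hκ2, ?_⟩
  intro b n m e N D hm hN hP hD
  by_cases hbB : b ≤ ⌈Real.exp T⌉₊
  · exact ccw_anti (min_le_right _ _) (H2 b n m e N D hbB hm hN (fun i => (hP i).pi (hN i)) hD)
  rw [not_le] at hbB
  have hb1 : Real.exp T < b := by
    have h1 : (⌈Real.exp T⌉₊ : ℝ) < b := by exact_mod_cast hbB
    exact lt_of_le_of_lt (Nat.le_ceil _) h1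
  have hlog : T < Real.log b := by
    rw [Real.lt_log_iff_exp_lt (lt_trans (Real.exp_pos _) hb1)]
    exact hb1
  choose A hA hW using fun i => blk_of_pi (hN i) (hP i)
  have hm2 : ∀ i, 2 ≤ m i := by
    intro i
    by_contra h
    have h1 : m i = 1 := by have := hm i; omega
    have h2 := (hW i).lin (by omega)
    rw [h1, Nat.cast_one, mul_one] at h2
    linarith
  have he : e '' bs N D = ((LinearEquiv.piCongrRight A).symm.trans e) ''
      bs (fun i x => N i ((A i).symm x)) D := by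
    ext y
    constructor
    · rintro ⟨x, hx, rfl⟩
      refine ⟨LinearEquiv.piCongrRight A x, ?_, ?_⟩
      · have h1 : (fun i => N i ((A i).symm ((LinearEquiv.piCongrRight A x) i))) =
            fun i => N i (x i) := by
          funext i
          simp
        change (fun i => N i ((A i).symm ((LinearEquiv.piCongrRight A x) i))) ∈ D
        rw [h1]
        exact hx
      · change e ((LinearEquiv.piCongrRight A).symm (LinearEquiv.piCongrRight A x)) = e x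
        rw [LinearEquiv.symm_apply_apply]
    · rintro ⟨x, hx, rfl⟩
      exact ⟨(LinearEquiv.piCongrRight A).symm x, hx, rfl⟩
  rw [he]
  exact ccw_anti (min_le_left _ _) (H1 b n m _ _ D hm2 hA hD hW)

end Pool.Agent.U18.UB
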