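import Pool.Agent.U18.UB.Bas

/-!
# Project UB: norms
-/

set_option autoImplicit false

namespace Pool.Agent.U18.UB

open MeasureTheory Set Filter Topology
open scoped ENNReal InnerProductSpace

theorem Nrm.nonneg {m : ℕ} {N : E m → ℝ} (h : Nrm N) (x : E m) : 0 ≤ N x := by
  by_cases hx : x = 0
  · have := h.smul 0 0
    rw [hx]
    simp at this
    rw [this]
  · exact (h.pos x hx).le

theorem Nrm.zero {m : ℕ} {N : E m → ℝ} (h : Nrm N) : N 0 = 0 := by
  have := h.smul 0 0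
  simpa using this

theorem Nrm.neg {m : ℕ} {N : E m → ℝ} (h : Nrm N) (x : E m) : N (-x) = N x := by
  have := h.smul (-1) x
  simpa using this

theorem Nrm.conv {m : ℕ} {N : E m → ℝ} (h : Nrm N) : ConvexOn ℝ univ N := by
  refine ⟨convex_univ, fun x _ y _ a c ha hc _ => ?_⟩
  refine (h.add_le _ _).trans ?_
  rw [h.smul, h.smul, abs_of_nonneg ha, abs_of_nonneg hc]
  rfl

theorem Nrm.cont {m : ℕ} {N : E m → ℝ} (h : Nrm N) : Continuous N :=
  h.conv.locallyLipschitz.continuous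

theorem Nrm.lower {m : ℕ} {N : E m → ℝ} (h : Nrm N) : ∃ c : ℝ, 0 < c ∧ ∀ x, c * ‖x‖ ≤ N x := by
  rcases Nat.eq_zero_or_pos m with rfl | hm
  · exact ⟨1, one_pos, fun x => by rw [Subsingleton.elim x 0]; simpa using h.nonneg 0⟩
  haveI : NeZero m := ⟨hm.ne'⟩
  have hne : (Metric.sphere (0 : E m) 1).Nonempty :=
    ⟨EuclideanSpace.single (0 : Fin m) (1 : ℝ), by simp⟩
  obtain ⟨x0, hx0, hmin⟩ := (isCompact_sphere (0 : E m) 1).exists_isMinOn hne h.cont.continuousOn
  have hx1 : ‖x0‖ = 1 := by simpa using hx0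
  have hx2 : x0 ≠ 0 := by
    rintro rfl
    simp at hx1
  refine ⟨N x0, h.pos x0 hx2, fun x => ?_⟩
  by_cases hx : x = 0
  · rw [hx, norm_zero, mul_zero, h.zero]
  · have hx' : ‖x‖ ≠ 0 := norm_ne_zero_iff.2 hx
    have h1 : N x0 ≤ N (‖x‖⁻¹ • x) := hmin (by
      simp [norm_smul, inv_mul_cancel₀ hx'])
    rw [h.smul, abs_inv, abs_of_nonneg (norm_nonneg x)] at h1
    have h2 : 0 < ‖x‖ := by positivity
    rw [inv_mul_eq_div, le_div_iff₀ h2] at h1
    exact h1

theorem Nrm.compact {m : ℕ} {N : E m → ℝ} (h : Nrm N) : IsCompact (ball N) := by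
  obtain ⟨c, hc, hb⟩ := h.lower
  refine Metric.isCompact_of_isClosed_isBounded (isClosed_le h.cont continuous_const) ?_
  refine (Metric.isBounded_closedBall (x := (0 : E m)) (r := 1 / c)).subset fun x hx => ?_
  have h1 : N x ≤ 1 := hx
  rw [Metric.mem_closedBall, dist_zero_right, le_div_iff₀ hc]
  linarith [hb x]

theorem Nrm.int {m : ℕ} {N : E m → ℝ} (h : Nrm N) : (interior (ball N)).Nonempty := by
  refine ⟨0, mem_interior_iff_mem_nhds.2 ?_⟩
  have h0 : N 0 < 1 := by rw [h.zero]; exact one_pos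
  exact (h.cont.continuousAt.eventually (gt_mem_nhds h0)).mono fun x hx => hx.le

theorem Nrm.vol_ne {m : ℕ} {N : E m → ℝ} (h : Nrm N) : volume (ball N) ≠ 0 :=
  (lt_of_lt_of_le (isOpen_interior.measure_pos volume h.int) (measure_mono interior_subset)).ne'

theorem Nrm.vol_fin {m : ℕ} {N : E m → ℝ} (h : Nrm N) : volume (ball N) ≠ ⊤ :=
  h.compact.measure_lt_top.ne

theorem Nrm.prob {m : ℕ} {N : E m → ℝ} (h : Nrm N) : IsProbabilityMeasure (un (ball N)) := by
  refine ⟨?_⟩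
  unfold un
  rw [Measure.smul_apply, Measure.restrict_apply_univ, smul_eq_mul,
    ENNReal.inv_mul_cancel h.vol_ne h.vol_fin]

end Pool.Agent.U18.UB
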