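import Pool.Agent.U18.UB.All
import Pool.Agent.Y506.PV.Stb
import Pool.Agent.Y211.PV.Iso

/-!
# Project UB: the properties of unconditional sums, in the form used by the results files
-/

set_option autoImplicit false

namespace Pool.Agent.U18.UB

open MeasureTheory Set Filter Topology
open scoped ENNReal InnerProductSpace

/-- the sums -/
def sb {b n : ℕ} {m : Fin b → ℕ} (L : E n ≃ₗ[ℝ] (∀ i, E (m i))) (N : ∀ i, E (m i) → ℝ)
    (D : Set (E b)) : Set (E n) := {x | WithLp.toLp 2 (fun i => N i (L x i)) ∈ D}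

/-- `D` as a set of functions -/
def dfun {b : ℕ} (D : Set (E b)) : Set (Fin b → ℝ) := {t | WithLp.toLp 2 t ∈ D}

theorem sb_eq {b n : ℕ} {m : Fin b → ℕ} (L : E n ≃ₗ[ℝ] (∀ i, E (m i))) (N : ∀ i, E (m i) → ℝ)
    (D : Set (E b)) : sb L N D = L.symm '' bs N (dfun D) := by
  ext x
  constructor
  · intro hx
    exact ⟨L x, hx, L.symm_apply_apply x⟩
  · rintro ⟨y, hy, rfl⟩
    change WithLp.toLp 2 (fun i => N i (L (L.symm y) i)) ∈ D
    rw [L.apply_symm_apply]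
    exact hy

theorem dfun_ubd {b : ℕ} {D : Set (E b)} (h1 : IsCompact D) (h2 : Convex ℝ D)
    (h3 : (interior D).Nonempty)
    (h4 : ∀ t ∈ D, ∀ s : E b, (∀ i, |s i| ≤ |t i|) → s ∈ D) : UBd (dfun D) := by
  obtain ⟨φ, hφ⟩ : ∃ φ : (Fin b → ℝ) ≃L[ℝ] E b, ∀ t, φ t = WithLp.toLp 2 t :=
    ⟨(EuclideanSpace.equiv (Fin b) ℝ).symm, fun t => rfl⟩
  have he : dfun D = φ ⁻¹' D := by
    ext t
    change WithLp.toLp 2 t ∈ D ↔ φ t ∈ D
    rw [hφ]
  refine ⟨?_, ?_, ?_, ?_⟩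
  · have e2 : φ.symm '' D = φ ⁻¹' D := by
      ext x
      constructor
      · rintro ⟨y, hy, rfl⟩
        change φ (φ.symm y) ∈ D
        rwa [φ.apply_symm_apply]
      · intro hx
        exact ⟨φ x, hx, φ.symm_apply_apply x⟩
    rw [he, ← e2]
    exact h1.image φ.symm.continuous
  · rw [he]
    exact h2.linear_preimage φ.toLinearEquiv.toLinearMap
  · rw [he]
    obtain ⟨x, hx⟩ := h3
    refine ⟨φ.symm x, ?_⟩
    have hop : IsOpen (φ ⁻¹' interior D) := isOpen_interior.preimage φ.continuous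
    have hsub : φ ⁻¹' interior D ⊆ φ ⁻¹' D := preimage_mono interior_subset
    refine interior_maximal hsub hop ?_
    change φ (φ.symm x) ∈ interior D
    rwa [φ.apply_symm_apply]
  · intro t ht s hs
    exact h4 _ ht _ hs

/-- the class of sums -/
structure Sm (c0 T : ℝ) (n : ℕ) (K : Set (E n)) : Prop where
  rep : ∃ (b : ℕ) (m : Fin b → ℕ) (L : E n ≃ₗ[ℝ] (∀ i, E (m i))) (N : ∀ i, E (m i) → ℝ)
    (D : Set (Fin b → ℝ)), (∀ i, 1 ≤ m i) ∧ (∀ i, Nrm (N i)) ∧ (∀ i, BlkP c0 T b (N i)) ∧ UBd D ∧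
    K = L.symm '' bs N D

theorem Sm.body {c0 T : ℝ} {n : ℕ} {K : Set (E n)} (h : Sm c0 T n K) : IsCompact K ∧
    Convex ℝ K ∧ (interior K).Nonempty ∧ ∀ x ∈ K, -x ∈ K := by
  obtain ⟨b, m, L, N, D, hm, hN, hP, hD, rfl⟩ := h.rep
  have hLc : Continuous L.symm := L.symm.toLinearMap.continuous_of_finiteDimensional
  refine ⟨(bs_compact hN hD).image hLc, ?_, ?_, ?_⟩
  · refine Convex.linear_image ?_ L.symm.toLinearMap
    intro x hx y hy p q hp hq hpq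
    have h1 : p • (fun i => N i (x i)) + q • (fun i => N i (y i)) ∈ D :=
      hD.conv hx hy hp hq hpq
    refine hD.unc _ h1 _ fun i => ?_
    have e1 : (p • x + q • y) i = p • x i + q • y i := rfl
    have e2 : (p • (fun i => N i (x i)) + q • (fun i => N i (y i))) i =
        p * N i (x i) + q * N i (y i) := rfl
    rw [e1, e2, abs_of_nonneg ((hN i).nonneg _), abs_of_nonneg (add_nonneg
      (mul_nonneg hp ((hN i).nonneg _)) (mul_nonneg hq ((hN i).nonneg _)))]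
    refine ((hN i).add_le _ _).trans (le_of_eq ?_)
    rw [(hN i).smul, (hN i).smul, abs_of_nonneg hp, abs_of_nonneg hq]
  · have hop : IsOpen (L.symm '' interior (bs N D)) :=
      L.symm.toContinuousLinearEquiv.toHomeomorph.isOpenMap _ isOpen_interior
    exact ((bs_int hN hD).image L.symm).mono
      (interior_maximal (image_mono interior_subset) hop)
  · rintro x ⟨y, hy, rfl⟩
    exact ⟨-y, bs_symm hN y hy, by simp⟩

theorem Sm.cc (c0 T δ : ℝ) (hc0 : 0 < c0) (hT : 0 < T) (hδ : 0 < δ) : ∃ κ : ℝ, 0 < κ ∧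
    ∀ (n : ℕ) (K : Set (E n)), Sm c0 T n K → IsCompact K ∧
    Convex ℝ K ∧ (interior K).Nonempty ∧ Pool.Agent.R751.MB.CcW κ δ (Pool.Agent.R751.MB.ind K) := by
  obtain ⟨κ, hκ, H⟩ := ccu2 c0 T δ hc0 hT hδ
  refine ⟨κ, hκ, fun n K hK => ?_⟩
  obtain ⟨h1, h2, h3, -⟩ := hK.body
  refine ⟨h1, h2, h3, ?_⟩
  obtain ⟨b, m, L, N, D, hm, hN, hP, hD, rfl⟩ := hK.rep
  exact H b n m L.symm N D hm hN hP hD

theorem Sm.star (c0 T : ℝ) (hc0 : 0 < c0) (hT : 0 < T) : ∃ c : ℝ, 0 < c ∧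
    ∀ (n : ℕ) (K : Set (E n)), Sm c0 T n K →
    Pool.Agent.Y506.RG.Star c (Pool.Agent.Y506.PV.ind K) := by
  obtain ⟨κ, hκ, H⟩ := Sm.cc c0 T (1 / 25) hc0 hT (by norm_num)
  obtain ⟨c, hc, H'⟩ := Pool.Agent.Y506.PV.stb Pool.Agent.Y211.PV.iso κ hκ
  refine ⟨c, hc, fun n K hK => ?_⟩
  obtain ⟨h1, h2, h3, h4⟩ := H n K hK
  exact H' n K h1 h2 h3 h4

/-- Poincare inequalities in terms of variances -/
theorem var_un {n : ℕ} {K : Set (E n)} (h1 : IsCompact K) (h0 : volume K ≠ 0)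
    {f : E n → ℝ} (hf : Continuous f) : ProbabilityTheory.variance f (un K) =
      (∫ x, f x ^ 2 ∂(un K)) - (∫ x, f x ∂(un K)) ^ 2 := by
  have hp : IsProbabilityMeasure (un K) := Pool.Agent.R754.KG.un_prob h0 h1.measure_lt_top.ne
  have h2 : Integrable (fun x => f x ^ 2) (un K) :=
    Pool.Agent.R754.KG.un_int h0 h1.isBounded (hf.pow 2)
  rw [ProbabilityTheory.variance_eq_sub
    ((memLp_two_iff_integrable_sq hf.aestronglyMeasurable).2 h2)]
  rfl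

theorem blkP_of {c0 T : ℝ} {b k : ℕ} {N : E k → ℝ} (hN : Nrm N) {A : E k ≃ₗ[ℝ] E k}
    (h1 : ∀ θ : E k, ProbabilityTheory.variance (fun x => ⟪A x, θ⟫_ℝ) (un (ball N)) = ‖θ‖ ^ 2)
    (h2 : ∀ f : E k → ℝ, ContDiff ℝ 1 f →
      ProbabilityTheory.variance (fun x => f (A x)) (un (ball N)) ≤
        c0 * ∫ x, ‖fderiv ℝ f (A x)‖ ^ 2 ∂(un (ball N)))
    (h3 : (1 + Real.log b) ^ 2 ≤ T * k ∨
      (1 + Real.log b ≤ T * k ∧ ∀ x ∈ ball N, ‖A x‖ ≤ T * Real.sqrt k)) : BlkP c0 T b N := by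
  have hAc : Continuous A := A.toLinearMap.continuous_of_finiteDimensional
  refine ⟨A, fun θ => ?_, fun f hf => ?_, h3⟩
  · have h := h1 θ
    rwa [var_un hN.compact hN.vol_ne (by fun_prop)] at h
  · have h := h2 f hf
    rwa [var_un hN.compact hN.vol_ne (f := fun x => f (A x)) (hf.continuous.comp hAc)] at h

end Pool.Agent.U18.UB
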