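import Pool.Agent.U18.UB.Res
import Pool.Agent.U818.UB.ANP
import Pool.Agent.R755.KS.Mrg

/-!
# Project UB: weak Poincare inequalities, admissible norms
-/

set_option autoImplicit false

namespace Pool.Agent.U18.UB

open MeasureTheory Set Filter Topology
open scoped ENNReal InnerProductSpace

/-- weak Poincare inequalities -/
theorem Sm.wp (c0 T : ℝ) (hc0 : 0 < c0) (hT : 0 < T) : ∃ A : ℝ → ℝ,
    ∀ (n : ℕ) (K : Set (E n)), Sm c0 T n K → Pool.Agent.R755.KS.WPf A (un K) := by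
  obtain ⟨A, -, H⟩ := Pool.Agent.R755.KS.km_profile (P := fun n K => Sm c0 T n K)
    (fun δ hδ => Sm.cc c0 T δ hc0 hT hδ)
  refine ⟨A, fun n K hK => ?_⟩
  obtain ⟨h1, h2, h3, h4⟩ := H n K hK
  have hv : volume K ≠ 0 := Pool.Agent.R755.KF.vol_ne h3
  have hp : IsProbabilityMeasure (un K) := Pool.Agent.R754.KG.un_prob hv h1.measure_lt_top.ne
  obtain ⟨B, hB⟩ := Pool.Agent.R755.KS.un_bdd h1
  exact Pool.Agent.R755.KS.wpf_of_km (μ := un K) hB h4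

/-- images of codimension at most `r` -/
theorem Sm.img (c0 T : ℝ) (hc0 : 0 < c0) (hT : 0 < T) (r : ℕ) : ∃ c : ℝ, 0 < c ∧
    ∀ (n n' : ℕ) (K : Set (E n)) (P : E n →ₗ[ℝ] E n') (w : E n'), Sm c0 T n K → n ≤ n' + r →
    Function.Surjective P → IsCompact ((fun x => w + P x) '' K) ∧
    Convex ℝ ((fun x => w + P x) '' K) ∧ (interior ((fun x => w + P x) '' K)).Nonempty ∧
    Pool.Agent.Y506.RG.Star c (Pool.Agent.Y506.PV.ind ((fun x => w + P x) '' K)) := by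
  obtain ⟨A, -, H⟩ := Pool.Agent.R755.KS.km_profile (P := fun n K => Sm c0 T n K)
    (fun δ hδ => Sm.cc c0 T δ hc0 hT hδ)
  obtain ⟨c, hc, H'⟩ := Pool.Agent.R755.KS.ctR A 1 one_pos 0 r 1
  refine ⟨c, hc, fun n n' K P w hK hn hP => ?_⟩
  obtain ⟨h1, h2, h3, h4⟩ := H n K hK
  exact H' n' _ (Pool.Agent.R755.KS.Ct.image 0 n n' K P w hn hP
    (Pool.Agent.R755.KS.Ct.base n K h1 h2 h3 h4))

/-- the admissible norms -/
theorem adm : ∃ c0 : ℝ, 0 < c0 ∧ ∀ (T : ℝ) (b k : ℕ) (N : E k → ℝ),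
    Pool.Agent.R751.MB.AN k N → (1 + Real.log b) ^ 2 ≤ T * k → 1 ≤ k ∧ Nrm N ∧ BlkP c0 T b N := by
  obtain ⟨c0, hc0, H⟩ := Pool.Agent.U818.UB.t_ANP
  refine ⟨c0, hc0, fun T b k N hN hT => ?_⟩
  obtain ⟨-, -, -, A, h1, h2⟩ := H k N hN
  exact ⟨hN.basic.2, ⟨hN.basic.1.add_le, hN.basic.1.smul, hN.basic.1.pos⟩, A, h1, h2, Or.inl hT⟩

end Pool.Agent.U18.UB
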