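import Pool.Agent.U18.UB.Stm
import Pool.Agent.R751.MB.Res
import Pool.Agent.R755.KF.Iso

/-!
# Project UB: statements, second part
-/

set_option autoImplicit false

namespace Pool.Agent.U18.UB

open MeasureTheory Set Filter Topology
open scoped ENNReal InnerProductSpace

/-- UB-CCU. The concentration property of all linear images -/
def S_CCU : Prop := ∀ c0 T δ : ℝ, 0 < c0 → 0 < T → 0 < δ → ∃ κ : ℝ, 0 < κ ∧
  ∀ (b n : ℕ) (m : Fin b → ℕ) (e : (∀ i, E (m i)) ≃ₗ[ℝ] E n) (N : ∀ i, E (m i) → ℝ)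
  (D : Set (Fin b → ℝ)), (∀ i, 1 ≤ m i) → (∀ i, Nrm (N i)) →
  (∀ i, Pool.Agent.R755.KF.PI c0 (ball (N i))) → UBd D →
  (∀ i, (1 + Real.log b) ^ 2 ≤ T * m i) →
  Pool.Agent.R751.MB.CcW κ δ (Pool.Agent.R751.MB.ind (e '' bs N D))

/-- UB-FSB. The same for boundedly many blocks (from the library theorem `Pool.Agent.R751.MB.fsu`) -/
def S_FSB : Prop := ∀ (B : ℕ) (c0 δ : ℝ), 0 < c0 → 0 < δ → ∃ κ : ℝ, 0 < κ ∧
  ∀ (b n : ℕ) (m : Fin b → ℕ) (e : (∀ i, E (m i)) ≃ₗ[ℝ] E n) (N : ∀ i, E (m i) → ℝ)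
  (D : Set (Fin b → ℝ)), b ≤ B → (∀ i, 1 ≤ m i) → (∀ i, Nrm (N i)) →
  (∀ i, Pool.Agent.R755.KF.PI c0 (ball (N i))) → UBd D →
  Pool.Agent.R751.MB.CcW κ δ (Pool.Agent.R751.MB.ind (e '' bs N D))

/-- UB-ANP. The unit balls of the admissible norms satisfy the Poincare inequality in isotropic
position. -/
def S_ANP : Prop := ∃ A : ℝ, 0 < A ∧ ∀ (k : ℕ) (N : E k → ℝ), Pool.Agent.R751.MB.AN k N →
  Pool.Agent.R755.KF.PI A (ball N)

end Pool.Agent.U18.UB
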